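import Pool.Agent.W212.EFF.Count

/-!
Lower bound: a `t`-cover-free family with more members than points lives on at least
`t^2 + 2` points.
-/

set_option autoImplicit false
set_option linter.unusedSectionVars false

namespace Pool.Agent.W212.EFF

open Finset

variable {V : Type*} [DecidableEq V]

lemma cov_family {F : Finset (Finset V)} {A : Finset V}
    (hpriv : ∀ x ∈ A, ∃ A' ∈ F, A' ≠ A ∧ x ∈ A') : ∀ {k : ℕ} {C : Finset V}, C ⊆ A →
    Cov (face (Finset.univ : Finset ↥(F.erase A)) (fun i => i.1)) k C →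
    ∃ G ⊆ F.erase A, G.card ≤ k ∧ C ⊆ G.sup id
  | 0, C, _, h => by
      simp only [Cov] at h
      subst h
      exact ⟨∅, by simp, by simp, by simp⟩
  | k + 1, C, hC, h => by
      classical
      obtain ⟨T, hT, h1⟩ := h
      obtain ⟨G, hG, hGc, hGs⟩ := cov_family hpriv (Finset.sdiff_subset.trans hC) h1
      have hred : ∀ B ∈ F.erase A, C ∩ T ⊆ B → ∃ G ⊆ F.erase A, G.card ≤ k + 1 ∧ C ⊆ G.sup id := by
        intro B hB hCB
        refine ⟨insert B G, Finset.insert_subset hB hG, (Finset.card_insert_le _ _).trans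
          (by omega), ?_⟩
        intro x hx
        rw [Finset.sup_insert]
        by_cases hxT : x ∈ T
        · exact Finset.mem_union_left _ (hCB (Finset.mem_inter.2 ⟨hx, hxT⟩))
        · exact Finset.mem_union_right _ (hGs (Finset.mem_sdiff.2 ⟨hx, hxT⟩))
      rcases hT with hT | ⟨i, _, hi⟩
      · by_cases hCT : (C ∩ T).Nonempty
        · obtain ⟨x, hx⟩ := hCT
          have hx' := Finset.mem_inter.1 hx
          obtain ⟨B, hB, hne, hxB⟩ := hpriv x (hC hx'.1)
          refine hred B (Finset.mem_erase.2 ⟨hne, hB⟩) ?_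
          intro y hy
          have hy' := Finset.mem_inter.1 hy
          have := Finset.card_le_one.1 hT y hy'.2 x hx'.2
          rw [this]
          exact hxB
        · rw [Finset.not_nonempty_iff_eq_empty] at hCT
          refine ⟨G, hG, by omega, ?_⟩
          intro x hx
          apply hGs
          refine Finset.mem_sdiff.2 ⟨hx, fun hxT => ?_⟩
          have : x ∈ C ∩ T := Finset.mem_inter.2 ⟨hx, hxT⟩
          rw [hCT] at this
          exact absurd this (Finset.notMem_empty x)
      · exact hred i.1 i.2 (Finset.inter_subset_right.trans hi)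

theorem lower {t : ℕ} (ht : 1 ≤ t) : ∀ (n : ℕ) (X : Finset V), X.card ≤ n →
    ∀ F : Finset (Finset V), (∀ A ∈ F, A ⊆ X) →
    (∀ A ∈ F, ∀ G ⊆ F.erase A, G.card ≤ t → ¬ A ⊆ G.sup id) → X.card < F.card →
    t ^ 2 + 2 ≤ X.card := by
  classical
  intro n
  induction n with
  | zero =>
    intro X hX F hF hcf hlt
    exfalso
    have hX0 : X = ∅ := Finset.card_eq_zero.1 (Nat.le_zero.1 hX)
    subst hX0
    obtain ⟨A, hA⟩ := Finset.card_pos.1 (lt_of_le_of_lt (Nat.zero_le _) hlt)
    apply hcf A hA ∅ (Finset.empty_subset _) (by simp)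
    exact (hF A hA).trans (Finset.empty_subset _)
  | succ n ih =>
    intro X hX F hF hcf hlt
    by_cases hpriv : ∀ A ∈ F, ∀ x ∈ A, ∃ A' ∈ F, A' ≠ A ∧ x ∈ A'
    · have hpack : ∀ A ∈ F, ∃ u : V → ℝ, (∀ v, 0 ≤ u v) ∧
          (∀ A' ∈ F, A' ≠ A → ∑ v ∈ A' ∩ A, u v ≤ 1) ∧
          (t + 1 : ℝ) ≤ ∑ v ∈ A, Real.sqrt (u v) := by
        intro A hA
        have hne : A.Nonempty := by
          rw [Finset.nonempty_iff_ne_empty]
          intro hA0
          apply hcf A hA ∅ (Finset.empty_subset _) (by simp)
          rw [hA0]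
          exact Finset.empty_subset _
        obtain ⟨u, hu0, hu1, hu2⟩ := exists_packing (fun i : ↥(F.erase A) => i.1) A (by
          intro v hv
          obtain ⟨A', hA', hne, hvA'⟩ := hpriv A hA v hv
          exact ⟨⟨A', Finset.mem_erase.2 ⟨hne, hA'⟩⟩, hvA'⟩) hne
        refine ⟨u, hu0, ?_, ?_⟩
        · intro A' hA' hne'
          exact hu1 ⟨A', Finset.mem_erase.2 ⟨hne', hA'⟩⟩
        · refine le_trans ?_ hu2
          have h1 : t + 1 ≤ Y (face (Finset.univ : Finset ↥(F.erase A)) (fun i => i.1)) A := by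
            by_contra hlt'
            push Not at hlt'
            obtain ⟨G, hG, hGc, hGs⟩ := cov_family (hpriv A hA) (Finset.Subset.refl A)
              (Y_spec (face_cpx _ _) A)
            exact hcf A hA G hG (by omega) hGs
          exact_mod_cast h1
      choose! u hu0 hu1 hu2 using hpack
      by_contra hcon
      have hn : (X.card : ℝ) - 1 ≤ (t : ℝ) ^ 2 := by
        have h1 : X.card ≤ t ^ 2 + 1 := by omega
        have h2 : (X.card : ℝ) ≤ (t : ℝ) ^ 2 + 1 := by exact_mod_cast h1
        linarith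
      have := count ht X F hF hpriv u hu0 hu1 hu2 hn
      omega
    · push Not at hpriv
      obtain ⟨A, hA, x, hxA, hx⟩ := hpriv
      have hxX : x ∈ X := hF A hA hxA
      have hX1 : 1 ≤ X.card := Finset.card_pos.2 ⟨x, hxX⟩
      have hF1 : 1 ≤ F.card := Finset.card_pos.2 ⟨A, hA⟩
      have := ih (X.erase x) (by rw [Finset.card_erase_of_mem hxX]; omega) (F.erase A) (by
        intro B hB
        have hB' := Finset.mem_erase.1 hB
        intro y hy
        refine Finset.mem_erase.2 ⟨fun hc => ?_, hF B hB'.2 hy⟩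
        subst hc
        exact hx B hB'.2 hB'.1 hy) (by
        intro B hB G hG hGc
        have hB' := Finset.mem_erase.1 hB
        apply hcf B hB'.2 G _ hGc
        intro Z hZ
        have := Finset.mem_erase.1 (hG hZ)
        exact Finset.mem_erase.2 ⟨this.1, Finset.mem_of_mem_erase this.2⟩) (by
        rw [Finset.card_erase_of_mem hxX, Finset.card_erase_of_mem hA]
        omega)
      rw [Finset.card_erase_of_mem hxX] at this
      omega

end Pool.Agent.W212.EFF
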