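import Mathlib
import Pool.Agent.Cov.PNT

/-!
Upper bound: affine planes of prime order.
-/

set_option autoImplicit false
set_option linter.unusedSectionVars false

namespace Pool.Agent.W212.EFF

open Finset Filter Topology

/-- transfer to `Fin n` -/
lemma transfer {P L : Type*} [Fintype P] [DecidableEq P] [Fintype L] [DecidableEq L]
    {n q t : ℕ} (hn : Fintype.card P = n) (hL : n < Fintype.card L) (l : L → Finset P)
    (hq : ∀ i, (l i).card = q) (hint : ∀ i j, i ≠ j → (l i ∩ l j).card ≤ 1) (htq : t < q)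
    (hq2 : 2 ≤ q) :
    ∃ F : Finset (Finset (Fin n)), n < F.card ∧
      ∀ A ∈ F, ∀ S ⊆ F.erase A, S.card ≤ t → ¬ A ⊆ S.sup id := by
  classical
  let e : P ≃ Fin n := Fintype.equivFinOfCardEq hn
  let l' : L → Finset (Fin n) := fun i => (l i).map e.toEmbedding
  have hc : ∀ i, (l' i).card = q := fun i => by
    simp only [l', Finset.card_map, hq]
  have hi : ∀ i j, i ≠ j → (l' i ∩ l' j).card ≤ 1 := fun i j hij => by
    simp only [l', ← Finset.map_inter, Finset.card_map]
    exact hint i j hij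
  have hinj : Function.Injective l' := by
    intro i j hij
    by_contra hne
    have := hi i j hne
    rw [hij, Finset.inter_self, hc] at this
    omega
  refine ⟨Finset.univ.image l', ?_, ?_⟩
  · rw [Finset.card_image_of_injective _ hinj, Finset.card_univ]
    exact hL
  · intro A hA S hS hSc hAS
    obtain ⟨i, _, rfl⟩ := Finset.mem_image.1 hA
    have h1 : l' i = S.biUnion (fun B => l' i ∩ B) := by
      ext x
      simp only [Finset.mem_biUnion, Finset.mem_inter]
      constructor
      · intro hx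
        obtain ⟨B, hB, hxB⟩ := Finset.mem_sup.1 (hAS hx)
        exact ⟨B, hB, hx, hxB⟩
      · rintro ⟨B, _, hx, _⟩
        exact hx
    have h2 : (l' i).card ≤ ∑ B ∈ S, (l' i ∩ B).card := by
      conv_lhs => rw [h1]
      exact Finset.card_biUnion_le
    have h3 : ∑ B ∈ S, (l' i ∩ B).card ≤ ∑ B ∈ S, 1 := by
      apply Finset.sum_le_sum
      intro B hB
      have hB' := Finset.mem_erase.1 (hS hB)
      obtain ⟨j, _, rfl⟩ := Finset.mem_image.1 hB'.2
      apply hi
      rintro rfl
      exact hB'.1 rfl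
    rw [Finset.sum_const, smul_eq_mul, mul_one] at h3
    rw [hc] at h2
    omega

/-- the lines of the affine plane -/
def line (p : ℕ) [NeZero p] : Option (ZMod p) × ZMod p → Finset (ZMod p × ZMod p)
  | (some m, b) => Finset.univ.image (fun x => (x, m * x + b))
  | (none, c) => Finset.univ.image (fun y => (c, y))

lemma plane {p t : ℕ} (hp : p.Prime) (ht : t < p) :
    ∃ F : Finset (Finset (Fin (p ^ 2))), p ^ 2 < F.card ∧
      ∀ A ∈ F, ∀ S ⊆ F.erase A, S.card ≤ t → ¬ A ⊆ S.sup id := by
  haveI : Fact p.Prime := ⟨hp⟩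
  haveI : NeZero p := ⟨hp.ne_zero⟩
  refine transfer (P := ZMod p × ZMod p) (L := Option (ZMod p) × ZMod p) (q := p) ?_ ?_
    (line p) ?_ ?_ ht hp.two_le
  · rw [Fintype.card_prod, ZMod.card]
    ring
  · rw [Fintype.card_prod, Fintype.card_option, ZMod.card]
    have := hp.pos
    nlinarith
  · rintro ⟨_ | m, b⟩
    · simp only [line]
      rw [Finset.card_image_of_injective, Finset.card_univ, ZMod.card]
      intro x y h
      exact (Prod.mk.inj h).2
    · simp only [line]
      rw [Finset.card_image_of_injective, Finset.card_univ, ZMod.card]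
      intro x y h
      exact (Prod.mk.inj h).1
  · rintro ⟨m, b⟩ ⟨m', b'⟩ hne
    rw [Finset.card_le_one]
    rintro ⟨x, y⟩ h1 ⟨x', y'⟩ h2
    rw [Finset.mem_inter] at h1 h2
    rcases m with _ | m <;> rcases m' with _ | m' <;>
      simp only [line, Finset.mem_image, Finset.mem_univ, true_and, Prod.mk.injEq] at h1 h2
    · obtain ⟨⟨_, rfl, _⟩, ⟨_, h3, _⟩⟩ := h1
      exact absurd (by rw [h3]) hne
    · obtain ⟨⟨_, rfl, rfl⟩, ⟨_, rfl, h3⟩⟩ := h1
      obtain ⟨⟨_, h5, rfl⟩, ⟨_, h6, h4⟩⟩ := h2
      rw [← h5, ← h3, ← h4, h6, ← h5]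
    · obtain ⟨⟨_, h3, h4⟩, ⟨_, h5, rfl⟩⟩ := h1
      obtain ⟨⟨_, h6, h7⟩, ⟨_, h8, rfl⟩⟩ := h2
      rw [← h8, ← h4, ← h7, h3, h6, ← h5, ← h8]
    · obtain ⟨⟨_, rfl, h3⟩, ⟨_, rfl, h4⟩⟩ := h1
      obtain ⟨⟨_, rfl, h5⟩, ⟨_, rfl, h6⟩⟩ := h2
      rename_i a b'' 
      by_cases hmm : m = m'
      · subst hmm
        have hb : b = b' := by
          have : m * a + b = m * a + b' := by rw [h3, h4]
          exact add_left_cancel this
        exact absurd (by rw [hb]) hne
      · have hx : (m - m') * (a - b'') = 0 := by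
          have e1 : m * a + b = m' * a + b' := by rw [h3, h4]
          have e2 : m * b'' + b = m' * b'' + b' := by rw [h5, h6]
          linear_combination e1 - e2
        rcases mul_eq_zero.1 hx with h7 | h7
        · exact absurd (sub_eq_zero.1 h7) hmm
        · have h8 := sub_eq_zero.1 h7
          subst h8
          rw [← h3, ← h5]

theorem exists_prime_between {ε : ℝ} (hε : 0 < ε) :
    ∀ᶠ x : ℝ in atTop, ∃ p : ℕ, p.Prime ∧ x < p ∧ (p : ℝ) ≤ (1 + ε) * x := by
  have h1 := Pool.Agent.Cov.PNT.theta_div_tendsto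
  have h2 : Tendsto (fun x : ℝ => Chebyshev.theta ((1 + ε) * x) / x) atTop (𝓝 (1 + ε)) := by
    have h3 := (h1.comp (tendsto_id.const_mul_atTop (by linarith : (0 : ℝ) < 1 + ε))).mul_const
      (1 + ε)
    rw [one_mul] at h3
    refine h3.congr' ?_
    filter_upwards [eventually_gt_atTop 0] with x hx
    simp only [Function.comp, id]
    field_simp
  have h4 := h2.sub h1
  have h5 : ∀ᶠ x : ℝ in atTop, 0 < Chebyshev.theta ((1 + ε) * x) / x - Chebyshev.theta x / x :=
    h4.eventually (lt_mem_nhds (by linarith))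
  filter_upwards [h5, eventually_gt_atTop 0] with x hx hx0
  by_contra hno
  push Not at hno
  have : Chebyshev.theta ((1 + ε) * x) ≤ Chebyshev.theta x := by
    unfold Chebyshev.theta
    apply Finset.sum_le_sum_of_subset_of_nonneg
    · intro p hp
      simp only [Finset.mem_filter, Finset.mem_Ioc] at hp ⊢
      obtain ⟨⟨hp0, hp1⟩, hpp⟩ := hp
      have hp2 : (p : ℝ) ≤ (1 + ε) * x := (Nat.le_floor_iff (by positivity)).mp hp1
      refine ⟨⟨hp0, ?_⟩, hpp⟩
      apply Nat.le_floor
      by_contra hlt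
      push Not at hlt
      exact absurd hp2 (not_le.mpr (hno p hpp hlt))
    · intro i hi _
      simp only [Finset.mem_filter, Finset.mem_Ioc] at hi
      exact Real.log_nonneg (by exact_mod_cast hi.2.one_le)
  rw [← sub_div] at hx
  have := div_nonpos_of_nonpos_of_nonneg (sub_nonpos.mpr this) hx0.le
  linarith

end Pool.Agent.W212.EFF
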