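import Pool.Agent.W212.EFF.Cov
import Pool.Agent.H168DD.TB

/-!
Maximal barriers (Gallai-Edmonds type structure) of the graph of pairs of a complex.
-/

set_option autoImplicit false

namespace Pool.Agent.W212.EFF

open Finset

variable {V : Type*} [DecidableEq V]

/-- a barrier pair: `F` is a family of disjoint odd sets, closed in `C \ A` -/
structure Bar (K : Finset V → Prop) (C A : Finset V) (F : Finset (Finset V)) : Prop where
  hA : A ⊆ C
  odd : ∀ O ∈ F, Odd O.card
  sub : ∀ O ∈ F, O ⊆ C \ A
  disj : ∀ O ∈ F, ∀ O' ∈ F, O ≠ O' → Disjoint O O'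
  cl : ∀ O ∈ F, ∀ x ∈ O, ∀ y ∈ C, (gr K).Adj x y → y ∈ O ∨ y ∈ A

/-- maximal barrier pair -/
structure MBar (K : Finset V → Prop) (C A : Finset V) (F : Finset (Finset V)) : Prop
    extends Bar K C A F where
  le : A.card ≤ F.card
  max1 : ∀ A' F', Bar K C A' F' → F'.card + A.card ≤ F.card + A'.card
  max2 : ∀ A' F', Bar K C A' F' → F'.card + A.card = F.card + A'.card → A'.card ≤ A.card

lemma exists_mbar (K : Finset V → Prop) (C : Finset V) : ∃ A F, MBar K C A F := by
  classical
  let X : Finset (Finset V × Finset (Finset V)) :=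
    (C.powerset ×ˢ C.powerset.powerset).filter (fun p => Bar K C p.1 p.2)
  have hX : ∀ A F, Bar K C A F → (A, F) ∈ X := by
    intro A F h
    refine Finset.mem_filter.2 ⟨Finset.mem_product.2 ⟨Finset.mem_powerset.2 h.hA,
      Finset.mem_powerset.2 fun O hO => Finset.mem_powerset.2
        ((h.sub O hO).trans Finset.sdiff_subset)⟩, h⟩
  have h0 : Bar K C ∅ ∅ := ⟨by simp, by simp, by simp, by simp, by simp⟩
  obtain ⟨⟨A, F⟩, hAF, hmax⟩ := Finset.exists_max_image X
    (fun p => ((p.2.card : ℤ) - p.1.card) * (C.card + 1) + p.1.card) ⟨_, hX _ _ h0⟩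
  have hb : Bar K C A F := (Finset.mem_filter.1 hAF).2
  have hcA := Finset.card_le_card hb.hA
  refine ⟨A, F, { toBar := hb, le := ?_, max1 := ?_, max2 := ?_ }⟩
  · have := hmax _ (hX _ _ h0)
    simp only [Finset.card_empty, Nat.cast_zero, sub_zero, zero_mul, zero_add] at this
    by_contra hlt
    push Not at hlt
    have h1 : (F.card : ℤ) - A.card ≤ -1 := by
      have : (F.card : ℤ) < A.card := by exact_mod_cast hlt
      omega
    have h2 : (0 : ℤ) ≤ C.card := Int.natCast_nonneg _
    have h3 : ((F.card : ℤ) - A.card) * (C.card + 1) ≤ -1 * (C.card + 1) :=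
      mul_le_mul_of_nonneg_right h1 (by omega)
    have h4 : (A.card : ℤ) ≤ C.card := by exact_mod_cast hcA
    omega
  · intro A' F' h'
    have := hmax _ (hX _ _ h')
    simp only at this
    have hcA' := Finset.card_le_card h'.hA
    by_contra hlt
    push Not at hlt
    have h1 : (F.card : ℤ) - A.card + 1 ≤ (F'.card : ℤ) - A'.card := by
      have : (F.card : ℤ) + A'.card < F'.card + A.card := by exact_mod_cast hlt
      omega
    have h2 : (0 : ℤ) ≤ C.card := Int.natCast_nonneg _
    have h3 : ((F.card : ℤ) - A.card + 1) * (C.card + 1) ≤ ((F'.card : ℤ) - A'.card) * (C.card + 1) :=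
      mul_le_mul_of_nonneg_right h1 (by omega)
    have h4 : (A.card : ℤ) ≤ C.card := by exact_mod_cast hcA
    have h5 : (0 : ℤ) ≤ A'.card := Int.natCast_nonneg _
    have h6 : ((F.card : ℤ) - A.card + 1) * (C.card + 1) =
      ((F.card : ℤ) - A.card) * (C.card + 1) + (C.card + 1) := by ring
    omega
  · intro A' F' h' heq
    have := hmax _ (hX _ _ h')
    simp only at this
    have h1 : (F'.card : ℤ) - A'.card = (F.card : ℤ) - A.card := by
      have : (F'.card : ℤ) + A.card = F.card + A'.card := by exact_mod_cast heq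
      omega
    rw [h1] at this
    have h2 : (A'.card : ℤ) ≤ A.card := by omega
    exact_mod_cast h2

lemma MBar.cover {K : Finset V → Prop} {C A : Finset V} {F : Finset (Finset V)}
    (h : MBar K C A F) : C \ A = F.biUnion id := by
  classical
  set R := (C \ A) \ F.biUnion id with hR
  have hsub : F.biUnion id ⊆ C \ A := by
    intro x hx
    obtain ⟨O, hO, hxO⟩ := Finset.mem_biUnion.1 hx
    exact h.sub O hO hxO
  suffices hRe : R = ∅ by
    refine Finset.Subset.antisymm ?_ hsub
    exact Finset.sdiff_eq_empty_iff_subset.1 hRe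
  have hRcl : ∀ x ∈ R, ∀ y ∈ C, (gr K).Adj x y → y ∈ R ∨ y ∈ A := by
    intro x hx y hy hxy
    by_contra hcon
    push Not at hcon
    have hx' := Finset.mem_sdiff.1 hx
    have hxC := (Finset.mem_sdiff.1 hx'.1)
    have hyU : y ∈ F.biUnion id := by
      by_contra hyU
      exact hcon.1 (Finset.mem_sdiff.2 ⟨Finset.mem_sdiff.2 ⟨hy, hcon.2⟩, hyU⟩)
    obtain ⟨O, hO, hyO⟩ := Finset.mem_biUnion.1 hyU
    rcases h.cl O hO y hyO x hxC.1 hxy.symm with h1 | h1
    · exact hx'.2 (Finset.mem_biUnion.2 ⟨O, hO, h1⟩)
    · exact hxC.2 h1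
  have hnot : ∀ S : Finset V, S ⊆ R → S.Nonempty → S ∉ F := by
    intro S hS ⟨x, hx⟩ hSF
    have := Finset.mem_sdiff.1 (hS hx)
    exact this.2 (Finset.mem_biUnion.2 ⟨S, hSF, hx⟩)
  have hdisR : ∀ S : Finset V, S ⊆ R → ∀ O ∈ F, Disjoint S O := by
    intro S hS O hO
    rw [Finset.disjoint_left]
    intro x hx hxO
    have := Finset.mem_sdiff.1 (hS hx)
    exact this.2 (Finset.mem_biUnion.2 ⟨O, hO, hxO⟩)
  by_contra hne
  obtain ⟨r, hr⟩ := Finset.nonempty_iff_ne_empty.2 hne
  rcases Nat.even_or_odd R.card with he | ho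
  · -- even case
    have hodd : Odd (R.erase r).card := by
      rw [Finset.card_erase_of_mem hr]
      have : 0 < R.card := Finset.card_pos.2 ⟨r, hr⟩
      obtain ⟨k, hk⟩ := he
      exact ⟨k - 1, by omega⟩
    have hne' : (R.erase r).Nonempty := by
      rw [← Finset.card_pos]
      obtain ⟨k, hk⟩ := hodd
      omega
    have hrA : r ∉ A := by
      have := Finset.mem_sdiff.1 hr
      exact (Finset.mem_sdiff.1 this.1).2
    have hrC : r ∈ C := (Finset.mem_sdiff.1 (Finset.mem_sdiff.1 hr).1).1
    have hb : Bar K C (insert r A) (insert (R.erase r) F) := by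
      refine ⟨?_, ?_, ?_, ?_, ?_⟩
      · exact Finset.insert_subset hrC h.hA
      · intro O hO
        rcases Finset.mem_insert.1 hO with rfl | hO
        · exact hodd
        · exact h.odd O hO
      · intro O hO
        rcases Finset.mem_insert.1 hO with rfl | hO1
        · intro x hx
          have h1 := Finset.mem_erase.1 hx
          have h2 := Finset.mem_sdiff.1 (Finset.mem_sdiff.1 h1.2).1
          refine Finset.mem_sdiff.2 ⟨h2.1, fun hc => ?_⟩
          rcases Finset.mem_insert.1 hc with hc | hc
          · exact h1.1 hc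
          · exact h2.2 hc
        · intro x hx
          have h2 := Finset.mem_sdiff.1 (h.sub O hO1 hx)
          refine Finset.mem_sdiff.2 ⟨h2.1, fun hc => ?_⟩
          rcases Finset.mem_insert.1 hc with hc | hc
          · rw [hc] at hx
            exact (Finset.mem_sdiff.1 hr).2 (Finset.mem_biUnion.2 ⟨O, hO1, hx⟩)
          · exact h2.2 hc
      · intro O hO O' hO' hne''
        rcases Finset.mem_insert.1 hO with rfl | hO
        · rcases Finset.mem_insert.1 hO' with rfl | hO'
          · exact absurd rfl hne''
          · exact hdisR _ (Finset.erase_subset _ _) O' hO'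
        · rcases Finset.mem_insert.1 hO' with rfl | hO'
          · exact (hdisR _ (Finset.erase_subset _ _) O hO).symm
          · exact h.disj O hO O' hO' hne''
      · intro O hO x hx y hy hxy
        rcases Finset.mem_insert.1 hO with rfl | hO
        · rcases hRcl x (Finset.mem_of_mem_erase hx) y hy hxy with h1 | h1
          · by_cases hyr : y = r
            · right; rw [hyr]; exact Finset.mem_insert_self _ _
            · left; exact Finset.mem_erase.2 ⟨hyr, h1⟩
          · right; exact Finset.mem_insert_of_mem h1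
        · rcases h.cl O hO x hx y hy hxy with h1 | h1
          · left; exact h1
          · right; exact Finset.mem_insert_of_mem h1
    have hc1 : (insert r A).card = A.card + 1 := Finset.card_insert_of_notMem hrA
    have hc2 : (insert (R.erase r) F).card = F.card + 1 :=
      Finset.card_insert_of_notMem (hnot _ (Finset.erase_subset _ _) hne')
    have := h.max2 _ _ hb (by rw [hc1, hc2]; ring)
    omega
  · have hb : Bar K C A (insert R F) := by
      refine ⟨h.hA, ?_, ?_, ?_, ?_⟩
      · intro O hO
        rcases Finset.mem_insert.1 hO with rfl | hO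
        · exact ho
        · exact h.odd O hO
      · intro O hO
        rcases Finset.mem_insert.1 hO with rfl | hO
        · exact Finset.sdiff_subset
        · exact h.sub O hO
      · intro O hO O' hO' hne''
        rcases Finset.mem_insert.1 hO with rfl | hO
        · rcases Finset.mem_insert.1 hO' with rfl | hO'
          · exact absurd rfl hne''
          · exact hdisR _ (Finset.Subset.refl _) O' hO'
        · rcases Finset.mem_insert.1 hO' with rfl | hO'
          · exact (hdisR _ (Finset.Subset.refl _) O hO).symm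
          · exact h.disj O hO O' hO' hne''
      · intro O hO x hx y hy hxy
        rcases Finset.mem_insert.1 hO with rfl | hO
        · exact hRcl x hx y hy hxy
        · exact h.cl O hO x hx y hy hxy
    have hc2 : (insert R F).card = F.card + 1 :=
      Finset.card_insert_of_notMem (hnot _ (Finset.Subset.refl _) ⟨r, hr⟩)
    have := h.max1 _ _ hb
    omega

/-- the members of a maximal barrier are factor-critical -/
lemma MBar.fc {K : Finset V → Prop} {C A : Finset V} {F : Finset (Finset V)}
    (h : MBar K C A F) {O : Finset V} (hO : O ∈ F) {v : V} (hv : v ∈ O) : PM K (O.erase v) := by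
  classical
  by_contra hno
  set T := O.erase v with hT
  have hev : Even (T.card + 0) := by
    rw [hT, Finset.card_erase_of_mem hv, add_zero]
    obtain ⟨k, hk⟩ := h.odd O hO
    exact ⟨k, by omega⟩
  have h1 : ¬ ∀ (A : Finset V) (F : Finset (Finset V)), A ⊆ T → (∀ O ∈ F, Odd O.card) →
      (∀ O ∈ F, ∀ O' ∈ F, O ≠ O' → Disjoint O O') → (∀ O ∈ F, O ⊆ T \ A) →
      (∀ O ∈ F, ∀ x ∈ O, ∀ y ∈ T, (gr K).Adj x y → y ∈ O ∨ y ∈ A) → F.card ≤ A.card + 0 := by
    intro hcond
    obtain ⟨U, m, hU, hUc, hm⟩ := H168DD.tutte_berge (gr K) T 0 hev hcond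
    have hUe : U = ∅ := Finset.card_eq_zero.1 (Nat.le_zero.1 hUc)
    subst hUe
    apply hno
    exact ⟨m, by simpa using hm⟩
  push Not at h1
  obtain ⟨A', F', hA', hodd, hdisj, hsub, hcl, hcard⟩ := h1
  -- enlarge
  have h2 : ∃ F'' : Finset (Finset V), (∀ O ∈ F'', Odd O.card) ∧
      (∀ O ∈ F'', ∀ O' ∈ F'', O ≠ O' → Disjoint O O') ∧ (∀ O ∈ F'', O ⊆ T \ A') ∧
      (∀ O ∈ F'', ∀ x ∈ O, ∀ y ∈ T, (gr K).Adj x y → y ∈ O ∨ y ∈ A') ∧
      A'.card + 2 ≤ F''.card := by
    by_cases hc : A'.card + 2 ≤ F'.card
    · exact ⟨F', hodd, hdisj, hsub, hcl, hc⟩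
    have hc' : F'.card = A'.card + 1 := by omega
    set R := (T \ A') \ F'.biUnion id with hR
    have hsubU : F'.biUnion id ⊆ T \ A' := by
      intro x hx
      obtain ⟨O, hO, hxO⟩ := Finset.mem_biUnion.1 hx
      exact hsub O hO hxO
    have hcardU : (F'.biUnion id).card = ∑ O ∈ F', O.card := by
      rw [Finset.card_biUnion]
      · rfl
      · intro O hO O' hO' hne
        exact hdisj O hO O' hO' hne
    have hpar : (Odd (∑ O ∈ F', O.card) ↔ Odd F'.card) := by
      rw [Finset.odd_sum_iff_odd_card_odd]
      rw [Finset.filter_true_of_mem hodd]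
    have hcT : T.card = A'.card + (∑ O ∈ F', O.card) + R.card := by
      have e1 := Finset.card_sdiff_add_card_eq_card hA'
      have e2 := Finset.card_sdiff_add_card_eq_card hsubU
      rw [hcardU, ← hR] at e2
      omega
    have hoR : Odd R.card := by
      rw [add_zero, hcT] at hev
      by_contra hne
      rw [Nat.not_odd_iff_even] at hne
      rcases Nat.even_or_odd A'.card with ha | ha
      · have h3 : Odd (∑ O ∈ F', O.card) := hpar.2 (by rw [hc']; exact ha.add_one)
        have : Odd (A'.card + ∑ O ∈ F', O.card + R.card) := (ha.add_odd h3).add_even hne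
        exact (Nat.not_even_iff_odd.2 this) hev
      · have h3 : ¬ Odd (∑ O ∈ F', O.card) := by
          rw [hpar, Nat.not_odd_iff_even, hc']
          exact ha.add_one
        rw [Nat.not_odd_iff_even] at h3
        have : Odd (A'.card + ∑ O ∈ F', O.card + R.card) := (ha.add_even h3).add_even hne
        exact (Nat.not_even_iff_odd.2 this) hev
    have hRne : R.Nonempty := by
      rw [← Finset.card_pos]
      obtain ⟨k, hk⟩ := hoR
      omega
    have hdisR : ∀ O ∈ F', Disjoint R O := by
      intro O hO
      rw [Finset.disjoint_left]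
      intro x hx hxO
      exact (Finset.mem_sdiff.1 hx).2 (Finset.mem_biUnion.2 ⟨O, hO, hxO⟩)
    have hRF : R ∉ F' := by
      intro hc
      have := hdisR R hc
      rw [disjoint_self] at this
      exact hRne.ne_empty this
    refine ⟨insert R F', ?_, ?_, ?_, ?_, ?_⟩
    · intro O hO
      rcases Finset.mem_insert.1 hO with rfl | hO
      · exact hoR
      · exact hodd O hO
    · intro O hO O' hO' hne''
      rcases Finset.mem_insert.1 hO with rfl | hO
      · rcases Finset.mem_insert.1 hO' with rfl | hO'
        · exact absurd rfl hne''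
        · exact hdisR O' hO'
      · rcases Finset.mem_insert.1 hO' with rfl | hO'
        · exact (hdisR O hO).symm
        · exact hdisj O hO O' hO' hne''
    · intro O hO
      rcases Finset.mem_insert.1 hO with rfl | hO
      · exact Finset.sdiff_subset
      · exact hsub O hO
    · intro O hO x hx y hy hxy
      rcases Finset.mem_insert.1 hO with rfl | hO
      · by_contra hcon
        push Not at hcon
        have hx' := Finset.mem_sdiff.1 hx
        have hxC := (Finset.mem_sdiff.1 hx'.1)
        have hyU : y ∈ F'.biUnion id := by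
          by_contra hyU
          exact hcon.1 (Finset.mem_sdiff.2 ⟨Finset.mem_sdiff.2 ⟨hy, hcon.2⟩, hyU⟩)
        obtain ⟨O, hO, hyO⟩ := Finset.mem_biUnion.1 hyU
        rcases hcl O hO y hyO x hxC.1 hxy.symm with h1 | h1
        · exact hx'.2 (Finset.mem_biUnion.2 ⟨O, hO, h1⟩)
        · exact hxC.2 h1
      · exact hcl O hO x hx y hy hxy
    · rw [Finset.card_insert_of_notMem hRF]
      omega
  obtain ⟨F'', hodd, hdisj, hsub, hcl, hcard⟩ := h2
  have hOsub := h.sub O hO
  have hTO : T ⊆ O := Finset.erase_subset _ _
  have hA'O : A' ⊆ O := hA'.trans hTO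
  have hvA' : v ∉ A' := fun hc => (Finset.notMem_erase v O) (hA' hc)
  have hnotA : ∀ x ∈ O, x ∉ A := fun x hx => (Finset.mem_sdiff.1 (hOsub hx)).2
  have hinC : ∀ x ∈ O, x ∈ C := fun x hx => (Finset.mem_sdiff.1 (hOsub hx)).1
  have hsubO : ∀ O' ∈ F'', O' ⊆ O := fun O' hO' =>
    ((hsub O' hO').trans Finset.sdiff_subset).trans hTO
  have hcardA : (A ∪ insert v A').card = A.card + (A'.card + 1) := by
    rw [Finset.card_union_of_disjoint, Finset.card_insert_of_notMem hvA']
    rw [Finset.disjoint_right]
    intro x hx
    rcases Finset.mem_insert.1 hx with rfl | hx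
    · exact hnotA _ hv
    · exact hnotA x (hA'O hx)
  have hcardF : (F.erase O ∪ F'').card = F.card - 1 + F''.card := by
    rw [Finset.card_union_of_disjoint, Finset.card_erase_of_mem hO]
    rw [Finset.disjoint_right]
    intro x hx hx'
    have h3 := Finset.mem_erase.1 hx'
    have h4 := h.disj x h3.2 O hO h3.1
    have h5 : x = ∅ := by
      have := Finset.disjoint_of_subset_right (hsubO x hx) h4
      rwa [disjoint_self] at this
    have h6 := hodd x hx
    rw [h5] at h6
    simp at h6
  have hb : Bar K C (A ∪ insert v A') (F.erase O ∪ F'') := by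
    refine ⟨?_, ?_, ?_, ?_, ?_⟩
    · apply Finset.union_subset h.hA
      exact Finset.insert_subset (hinC v hv) fun x hx => hinC x (hA'O hx)
    · intro O' hO'
      rcases Finset.mem_union.1 hO' with hO' | hO'
      · exact h.odd O' (Finset.mem_of_mem_erase hO')
      · exact hodd O' hO'
    · intro O' hO' x hx
      rcases Finset.mem_union.1 hO' with hO' | hO'
      · have h3 := Finset.mem_erase.1 hO'
        have h4 := Finset.mem_sdiff.1 (h.sub O' h3.2 hx)
        have h5 : x ∉ O := fun hc => Finset.disjoint_left.1 (h.disj O' h3.2 O hO h3.1) hx hc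
        refine Finset.mem_sdiff.2 ⟨h4.1, fun hc => ?_⟩
        rcases Finset.mem_union.1 hc with hc | hc
        · exact h4.2 hc
        · rcases Finset.mem_insert.1 hc with hc | hc
          · subst hc; exact h5 hv
          · exact h5 (hA'O hc)
      · have h3 := Finset.mem_sdiff.1 (hsub O' hO' hx)
        refine Finset.mem_sdiff.2 ⟨hinC x (hTO h3.1), fun hc => ?_⟩
        rcases Finset.mem_union.1 hc with hc | hc
        · exact hnotA x (hTO h3.1) hc
        · rcases Finset.mem_insert.1 hc with hc | hc
          · subst hc; exact (Finset.notMem_erase _ _) h3.1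
          · exact h3.2 hc
    · intro O1 hO1 O2 hO2 hne
      rcases Finset.mem_union.1 hO1 with hO1 | hO1
      · have h3 := Finset.mem_erase.1 hO1
        rcases Finset.mem_union.1 hO2 with hO2 | hO2
        · exact h.disj O1 h3.2 O2 (Finset.mem_of_mem_erase hO2) hne
        · exact Finset.disjoint_of_subset_right (hsubO O2 hO2) (h.disj O1 h3.2 O hO h3.1)
      · rcases Finset.mem_union.1 hO2 with hO2 | hO2
        · have h3 := Finset.mem_erase.1 hO2
          exact Finset.disjoint_of_subset_left (hsubO O1 hO1) (h.disj O2 h3.2 O hO h3.1).symm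
        · exact hdisj O1 hO1 O2 hO2 hne
    · intro O' hO' x hx y hy hxy
      rcases Finset.mem_union.1 hO' with hO' | hO'
      · have h3 := Finset.mem_erase.1 hO'
        rcases h.cl O' h3.2 x hx y hy hxy with h4 | h4
        · left; exact h4
        · right; exact Finset.mem_union_left _ h4
      · rcases h.cl O hO x (hsubO O' hO' hx) y hy hxy with h4 | h4
        · by_cases hyv : y = v
          · right
            rw [hyv]
            exact Finset.mem_union_right _ (Finset.mem_insert_self _ _)
          · rcases hcl O' hO' x hx y (Finset.mem_erase.2 ⟨hyv, h4⟩) hxy with h5 | h5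
            · left; exact h5
            · right
              exact Finset.mem_union_right _ (Finset.mem_insert_of_mem h5)
        · right; exact Finset.mem_union_left _ h4
  have hFpos : 0 < F.card := Finset.card_pos.2 ⟨O, hO⟩
  have g1 := h.max1 _ _ hb
  have g2 := h.max2 _ _ hb
  rw [hcardA, hcardF] at g1 g2
  have := g2 (by omega)
  omega

end Pool.Agent.W212.EFF
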