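import Pool.Agent.W212.EFF.Pack

/-!
The weighted double counting.
-/

set_option autoImplicit false
set_option linter.unusedSectionVars false

namespace Pool.Agent.W212.EFF

open Finset

variable {V : Type*} [DecidableEq V]

theorem count {t : ℕ} (ht : 1 ≤ t) (X : Finset V) (F : Finset (Finset V))
    (hX : ∀ A ∈ F, A ⊆ X) (hpriv : ∀ A ∈ F, ∀ x ∈ A, ∃ A' ∈ F, A' ≠ A ∧ x ∈ A')
    (u : Finset V → V → ℝ) (hu0 : ∀ A ∈ F, ∀ v, 0 ≤ u A v)
    (hu1 : ∀ A ∈ F, ∀ A' ∈ F, A' ≠ A → ∑ v ∈ A' ∩ A, u A v ≤ 1)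
    (hu2 : ∀ A ∈ F, (t + 1 : ℝ) ≤ ∑ v ∈ A, Real.sqrt (u A v))
    (hn : (X.card : ℝ) - 1 ≤ (t : ℝ) ^ 2) : F.card ≤ X.card := by
  classical
  have ht' : (1 : ℝ) ≤ t := by exact_mod_cast ht
  have hux : ∀ A ∈ F, ∀ x ∈ A, u A x ≤ 1 := by
    intro A hA x hx
    obtain ⟨A', hA', hne, hxA'⟩ := hpriv A hA x hx
    refine le_trans ?_ (hu1 A hA A' hA' hne)
    exact Finset.single_le_sum (f := fun v => u A v) (fun v _ => hu0 A hA v)
      (Finset.mem_inter.2 ⟨hxA', hx⟩)
  set U : Finset V → ℝ := fun A => ∑ v ∈ A, u A v with hU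
  have hUpos : ∀ A ∈ F, 0 < U A := by
    intro A hA
    rcases (Finset.sum_nonneg fun v _ => hu0 A hA v : 0 ≤ U A).lt_or_eq with h | h
    · exact h
    · exfalso
      have h1 : ∀ v ∈ A, u A v = 0 := (Finset.sum_eq_zero_iff_of_nonneg
        (fun v _ => hu0 A hA v)).1 h.symm
      have h2 := hu2 A hA
      have h3 : ∑ v ∈ A, Real.sqrt (u A v) = 0 := by
        apply Finset.sum_eq_zero
        intro v hv
        rw [h1 v hv, Real.sqrt_zero]
      rw [h3] at h2
      linarith
  set c : Finset V → ℝ := fun A => 1 / U A with hc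
  have hcpos : ∀ A ∈ F, 0 < c A := fun A hA => one_div_pos.2 (hUpos A hA)
  have hcU : ∀ A ∈ F, c A * U A = 1 := fun A hA => by
    have := (hUpos A hA).ne'
    simp only [hc]
    field_simp
  set Fx : V → Finset (Finset V) := fun x => F.filter (fun A => x ∈ A) with hFx
  set D : V → ℝ := fun x => ∑ A ∈ Fx x, c A with hD
  set s : V → ℝ := fun x => ∑ A ∈ Fx x, c A * u A x with hs
  set mu : V → V → ℝ := fun x y => ∑ A ∈ (Fx x).filter (fun A => y ∈ A), c A with hmu
  have hcF : ∀ x, ∀ A ∈ Fx x, A ∈ F ∧ x ∈ A := fun x A hA => Finset.mem_filter.1 hA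
  have hmupos : ∀ x, ∀ A ∈ Fx x, ∀ y ∈ A, 0 < mu x y := by
    intro x A hA y hy
    have h1 : c A ≤ mu x y := Finset.single_le_sum (f := c)
      (fun B hB => (hcpos B (hcF x B (Finset.mem_filter.1 hB).1).1).le)
      (Finset.mem_filter.2 ⟨hA, hy⟩)
    exact lt_of_lt_of_le (hcpos A (hcF x A hA).1) h1
  have key : ∀ x ∈ X, s x ≤ 1 := by
    intro x hx
    by_cases hFe : Fx x = ∅
    · simp only [hs, hFe, Finset.sum_empty]
      norm_num
    have hFne := Finset.nonempty_iff_ne_empty.2 hFe
    have hDpos : 0 < D x := Finset.sum_pos (fun A hA => hcpos A (hcF x A hA).1) hFne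
    -- pair counting
    have hpair : ∑ A ∈ Fx x, c A * ∑ y ∈ A.erase x, 1 / mu x y ≤ (X.card : ℝ) - 1 := by
      have h1 : ∑ A ∈ Fx x, c A * ∑ y ∈ A.erase x, 1 / mu x y =
          ∑ y ∈ X.erase x, ∑ A ∈ (Fx x).filter (fun A => y ∈ A), c A * (1 / mu x y) := by
        have h2 : ∀ A ∈ Fx x, c A * ∑ y ∈ A.erase x, 1 / mu x y =
            ∑ y ∈ X.erase x, if y ∈ A then c A * (1 / mu x y) else 0 := by
          intro A hA
          rw [Finset.mul_sum, ← Finset.sum_filter]
          apply Finset.sum_congr _ (fun _ _ => rfl)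
          ext y
          simp only [Finset.mem_erase, Finset.mem_filter]
          constructor
          · rintro ⟨h3, h4⟩
            exact ⟨⟨h3, hX A (hcF x A hA).1 h4⟩, h4⟩
          · rintro ⟨⟨h3, _⟩, h4⟩
            exact ⟨h3, h4⟩
        rw [Finset.sum_congr rfl h2, Finset.sum_comm]
        apply Finset.sum_congr rfl
        intro y _
        exact (Finset.sum_filter (fun A => y ∈ A) (fun A => c A * (1 / mu x y))).symm
      rw [h1]
      have h3 : ∑ y ∈ X.erase x, ∑ A ∈ (Fx x).filter (fun A => y ∈ A), c A * (1 / mu x y) ≤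
          ∑ y ∈ X.erase x, (1 : ℝ) := by
        apply Finset.sum_le_sum
        intro y _
        rw [← Finset.sum_mul]
        change mu x y * (1 / mu x y) ≤ 1
        rw [mul_one_div]
        exact div_self_le_one _
      refine h3.trans ?_
      rw [Finset.sum_const, Finset.card_erase_of_mem hx, nsmul_eq_mul, mul_one]
      have : 1 ≤ X.card := Finset.card_pos.2 ⟨x, hx⟩
      rw [Nat.cast_sub this]
      simp
    -- local inequality
    have hz : ∀ A ∈ Fx x, 0 < 1 + D x * (1 - u A x) := by
      intro A hA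
      have h1 := hux A (hcF x A hA).1 x (hcF x A hA).2
      have : 0 ≤ D x * (1 - u A x) := mul_nonneg hDpos.le (by linarith)
      linarith
    have hloc : ∀ A ∈ Fx x, (t : ℝ) ^ 2 / (1 + D x * (1 - u A x)) ≤
        ∑ y ∈ A.erase x, 1 / mu x y := by
      intro A hA
      obtain ⟨hAF, hxA⟩ := hcF x A hA
      have hzA := hz A hA
      rw [div_le_iff₀ hzA]
      have hmp : ∀ y ∈ A.erase x, 0 < mu x y := fun y hy =>
        hmupos x A hA y (Finset.mem_of_mem_erase hy)
      have hCS : (∑ y ∈ A.erase x, Real.sqrt (u A y)) ^ 2 ≤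
          (∑ y ∈ A.erase x, 1 / mu x y) * ∑ y ∈ A.erase x, u A y * mu x y := by
        apply Finset.sum_sq_le_sum_mul_sum_of_sq_le_mul
        · intro y hy
          exact (one_div_pos.2 (hmp y hy)).le
        · intro y hy
          exact mul_nonneg (hu0 A hAF y) (hmp y hy).le
        · intro y hy
          rw [Real.sq_sqrt (hu0 A hAF y)]
          have := (hmp y hy).ne'
          apply le_of_eq
          field_simp
      have h1 : (t : ℝ) ≤ ∑ y ∈ A.erase x, Real.sqrt (u A y) := by
        have h2 := hu2 A hAF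
        rw [← Finset.add_sum_erase _ _ hxA] at h2
        have h3 : Real.sqrt (u A x) ≤ 1 := by
          rw [Real.sqrt_le_one]
          exact hux A hAF x hxA
        linarith
      have h2 : (t : ℝ) ^ 2 ≤ (∑ y ∈ A.erase x, Real.sqrt (u A y)) ^ 2 :=
        pow_le_pow_left₀ (by positivity) h1 2
      have h3 : ∑ y ∈ A.erase x, u A y * mu x y ≤ 1 + D x * (1 - u A x) := by
        have h4 : ∑ y ∈ A.erase x, u A y * mu x y =
            ∑ B ∈ Fx x, c B * ∑ y ∈ (B ∩ A).erase x, u A y := by
          have h5 : ∀ y ∈ A.erase x, u A y * mu x y =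
              ∑ B ∈ Fx x, if y ∈ B then c B * u A y else 0 := by
            intro y _
            rw [← Finset.sum_filter, mul_comm]
            simp only [hmu]
            rw [Finset.sum_mul]
          rw [Finset.sum_congr rfl h5, Finset.sum_comm]
          apply Finset.sum_congr rfl
          intro B _
          rw [Finset.mul_sum, ← Finset.sum_filter]
          apply Finset.sum_congr _ (fun _ _ => rfl)
          ext y
          simp only [Finset.mem_erase, Finset.mem_filter, Finset.mem_inter]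
          tauto
        rw [h4]
        have h5 : ∀ B ∈ Fx x, ∑ y ∈ (B ∩ A).erase x, u A y =
            ∑ y ∈ B ∩ A, u A y - u A x := by
          intro B hB
          have hxB := (hcF x B hB).2
          rw [← Finset.add_sum_erase _ _ (Finset.mem_inter.2 ⟨hxB, hxA⟩)]
          ring
        rw [← Finset.add_sum_erase _ _ hA]
        have h6 : c A * ∑ y ∈ (A ∩ A).erase x, u A y ≤ 1 - c A * u A x := by
          rw [h5 A hA, Finset.inter_self]
          change c A * (U A - u A x) ≤ _
          rw [mul_sub, hcU A hAF]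
        have h7 : ∑ B ∈ (Fx x).erase A, c B * ∑ y ∈ (B ∩ A).erase x, u A y ≤
            ∑ B ∈ (Fx x).erase A, c B * (1 - u A x) := by
          apply Finset.sum_le_sum
          intro B hB
          have hB' := Finset.mem_erase.1 hB
          have hBF := (hcF x B hB'.2).1
          rw [h5 B hB'.2]
          apply mul_le_mul_of_nonneg_left _ (hcpos B hBF).le
          have := hu1 A hAF B hBF hB'.1
          linarith
        rw [← Finset.sum_mul] at h7
        have h8 : c A + ∑ B ∈ (Fx x).erase A, c B = D x := Finset.add_sum_erase _ _ hA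
        have h9 : ∑ B ∈ (Fx x).erase A, c B = D x - c A := by linarith
        rw [h9] at h7
        have h10 := hcpos A hAF
        nlinarith
      calc (t : ℝ) ^ 2 ≤ _ := h2
        _ ≤ _ := hCS
        _ ≤ (∑ y ∈ A.erase x, 1 / mu x y) * (1 + D x * (1 - u A x)) :=
          mul_le_mul_of_nonneg_left h3 (Finset.sum_nonneg fun y hy =>
            (one_div_pos.2 (hmp y hy)).le)
    -- summation
    have hCS2 : (∑ A ∈ Fx x, c A) ^ 2 ≤
        (∑ A ∈ Fx x, c A / (1 + D x * (1 - u A x))) *
          ∑ A ∈ Fx x, c A * (1 + D x * (1 - u A x)) := by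
      apply Finset.sum_sq_le_sum_mul_sum_of_sq_le_mul
      · intro A hA
        exact div_nonneg (hcpos A (hcF x A hA).1).le (hz A hA).le
      · intro A hA
        exact mul_nonneg (hcpos A (hcF x A hA).1).le (hz A hA).le
      · intro A hA
        have := (hz A hA).ne'
        apply le_of_eq
        field_simp
    have hsum2 : ∑ A ∈ Fx x, c A * (1 + D x * (1 - u A x)) = D x * (1 + D x - s x) := by
      have : ∀ A ∈ Fx x, c A * (1 + D x * (1 - u A x)) =
          c A * (1 + D x) - D x * (c A * u A x) := fun A _ => by ring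
      rw [Finset.sum_congr rfl this, Finset.sum_sub_distrib, ← Finset.sum_mul, ← Finset.mul_sum]
      change D x * (1 + D x) - D x * s x = _
      ring
    have hsum3 : (t : ℝ) ^ 2 * ∑ A ∈ Fx x, c A / (1 + D x * (1 - u A x)) ≤ (X.card : ℝ) - 1 := by
      refine le_trans ?_ hpair
      rw [Finset.mul_sum]
      apply Finset.sum_le_sum
      intro A hA
      calc (t : ℝ) ^ 2 * (c A / (1 + D x * (1 - u A x))) =
            c A * ((t : ℝ) ^ 2 / (1 + D x * (1 - u A x))) := by ring
        _ ≤ _ := mul_le_mul_of_nonneg_left (hloc A hA) (hcpos A (hcF x A hA).1).le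
    rw [hsum2] at hCS2
    have hnn : 0 ≤ D x * (1 + D x - s x) := by
      rw [← hsum2]
      exact Finset.sum_nonneg fun A hA => mul_nonneg (hcpos A (hcF x A hA).1).le (hz A hA).le
    have hle1 : ∑ A ∈ Fx x, c A / (1 + D x * (1 - u A x)) ≤ 1 := by
      have h1 : (t : ℝ) ^ 2 * ∑ A ∈ Fx x, c A / (1 + D x * (1 - u A x)) ≤ (t : ℝ) ^ 2 * 1 := by
        linarith
      exact le_of_mul_le_mul_left h1 (by positivity)
    have h1 : (D x) ^ 2 ≤ D x * (1 + D x - s x) := by
      calc (D x) ^ 2 ≤ _ := hCS2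
        _ ≤ 1 * (D x * (1 + D x - s x)) := mul_le_mul_of_nonneg_right hle1 hnn
        _ = _ := one_mul _
    have h2 : D x * D x ≤ D x * (1 + D x - s x) := by rw [← sq]; exact h1
    have h3 := le_of_mul_le_mul_left h2 hDpos
    linarith
  have htot : ∑ x ∈ X, s x = F.card := by
    have h1 : ∀ x ∈ X, s x = ∑ A ∈ F, if x ∈ A then c A * u A x else 0 := by
      intro x _
      simp only [hs, hFx]
      rw [Finset.sum_filter]
    rw [Finset.sum_congr rfl h1, Finset.sum_comm, Finset.card_eq_sum_ones, Nat.cast_sum]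
    apply Finset.sum_congr rfl
    intro A hA
    rw [← Finset.sum_filter, Finset.filter_mem_eq_inter, Finset.inter_eq_right.2 (hX A hA),
      ← Finset.mul_sum]
    change c A * U A = _
    rw [hcU A hA]
    simp
  have hfin : (F.card : ℝ) ≤ X.card := by
    rw [← htot]
    calc ∑ x ∈ X, s x ≤ ∑ x ∈ X, (1 : ℝ) := Finset.sum_le_sum key
      _ = X.card := by simp
  exact_mod_cast hfin

end Pool.Agent.W212.EFF
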