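import Mathlib

/-!
Covers of a finite set by faces of a (down-closed) set system.
-/

set_option autoImplicit false

namespace Pool.Agent.W212.EFF

open Finset

variable {V : Type*} [DecidableEq V]

/-- `Cov K k C`: the set `C` is covered by `k` faces. -/
def Cov (K : Finset V → Prop) : ℕ → Finset V → Prop
  | 0, C => C = ∅
  | k + 1, C => ∃ S, K S ∧ Cov K k (C \ S)

/-- a complex: down-closed, all singletons are faces -/
structure Cpx (K : Finset V → Prop) : Prop where
  down : ∀ S T, K S → T ⊆ S → K T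
  empty : K ∅
  single : ∀ v, K {v}

lemma Cov.mono {K : Finset V → Prop} : ∀ {k : ℕ} {C D : Finset V}, Cov K k C → D ⊆ C → Cov K k D
  | 0, C, D, h, hD => by
      simp only [Cov] at h ⊢
      subst h
      exact Finset.subset_empty.1 hD
  | k + 1, C, D, h, hD => by
      obtain ⟨S, hS, h'⟩ := h
      exact ⟨S, hS, h'.mono (Finset.sdiff_subset_sdiff hD (Finset.Subset.refl _))⟩

lemma Cov.succ {K : Finset V → Prop} (hK : Cpx K) {k : ℕ} {C : Finset V} (h : Cov K k C) :
    Cov K (k + 1) C := ⟨∅, hK.empty, by simpa using h⟩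

lemma Cov.le {K : Finset V → Prop} (hK : Cpx K) {k l : ℕ} {C : Finset V} (h : Cov K k C)
    (hkl : k ≤ l) : Cov K l C := by
  induction hkl with
  | refl => exact h
  | step _ ih => exact ih.succ hK

lemma Cov.union {K : Finset V → Prop} (hK : Cpx K) : ∀ {k l : ℕ} {C D : Finset V},
    Cov K k C → Cov K l D → Cov K (k + l) (C ∪ D)
  | 0, l, C, D, h, h' => by
      simp only [Cov] at h
      subst h
      simpa using h'
  | k + 1, l, C, D, h, h' => by
      obtain ⟨S, hS, h1⟩ := h
      rw [show k + 1 + l = (k + l) + 1 by ring]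
      refine ⟨S, hS, (h1.union hK h').mono ?_⟩
      intro x hx
      simp only [Finset.mem_sdiff, Finset.mem_union] at hx ⊢
      tauto

lemma Cov.face {K : Finset V → Prop} {S : Finset V} (h : K S) : Cov K 1 S :=
  ⟨S, h, by simp [Cov]⟩

lemma Cov.card {K : Finset V → Prop} (hK : Cpx K) (C : Finset V) : Cov K C.card C := by
  induction C using Finset.induction_on with
  | empty => simp [Cov]
  | insert a s ha ih =>
    rw [Finset.card_insert_of_notMem ha]
    refine ⟨{a}, hK.single a, ih.mono ?_⟩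
    intro x hx
    simp only [Finset.mem_sdiff, Finset.mem_insert, Finset.mem_singleton] at hx
    tauto

/-- cover number -/
noncomputable def Y (K : Finset V → Prop) (C : Finset V) : ℕ := sInf {k | Cov K k C}

lemma Y_spec {K : Finset V → Prop} (hK : Cpx K) (C : Finset V) : Cov K (Y K C) C :=
  Nat.sInf_mem (s := {k | Cov K k C}) ⟨_, Cov.card hK C⟩

lemma Y_le {K : Finset V → Prop} {C : Finset V} {k : ℕ} (h : Cov K k C) : Y K C ≤ k :=
  Nat.sInf_le h

lemma Y_mono {K : Finset V → Prop} (hK : Cpx K) {C D : Finset V} (h : D ⊆ C) : Y K D ≤ Y K C :=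
  Y_le ((Y_spec hK C).mono h)

lemma Y_union_le {K : Finset V → Prop} (hK : Cpx K) (C D : Finset V) :
    Y K (C ∪ D) ≤ Y K C + Y K D :=
  Y_le ((Y_spec hK C).union hK (Y_spec hK D))

lemma Y_empty {K : Finset V → Prop} : Y K ∅ = 0 :=
  Nat.le_zero.1 (Y_le (by simp [Cov]))

lemma Y_le_card {K : Finset V → Prop} (hK : Cpx K) (C : Finset V) : Y K C ≤ C.card :=
  Y_le (Cov.card hK C)

lemma Y_biUnion_le {K : Finset V → Prop} (hK : Cpx K) {ι : Type*} [DecidableEq ι] (s : Finset ι)
    (f : ι → Finset V) : Y K (s.biUnion f) ≤ ∑ i ∈ s, Y K (f i) := by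
  induction s using Finset.induction_on with
  | empty => simp [Y_empty]
  | insert a s ha ih =>
    rw [Finset.biUnion_insert, Finset.sum_insert ha]
    exact (Y_union_le hK _ _).trans (by omega)

lemma Y_sdiff {K : Finset V → Prop} (hK : Cpx K) {S : Finset V} (hS : K S) (C : Finset V) :
    Y K C ≤ Y K (C \ S) + 1 :=
  Y_le ⟨S, hS, Y_spec hK _⟩

/-- splitting along a closed set -/
lemma cov_split {K : Finset V → Prop} (hK : Cpx K) : ∀ {k : ℕ} {C B : Finset V}, B ⊆ C →
    (∀ x ∈ B, ∀ y ∈ C \ B, ¬ K {x, y}) → Cov K k C →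
    ∃ i j, i + j ≤ k ∧ Cov K i B ∧ Cov K j (C \ B)
  | 0, C, B, hB, _, h => by
      simp only [Cov] at h
      subst h
      have hB' : B = ∅ := Finset.subset_empty.1 hB
      subst hB'
      exact ⟨0, 0, le_refl _, by simp [Cov], by simp [Cov]⟩
  | k + 1, C, B, hB, hcl, h => by
      obtain ⟨S, hS, h1⟩ := h
      have hcl' : ∀ x ∈ B \ S, ∀ y ∈ (C \ S) \ (B \ S), ¬ K {x, y} := by
        intro x hx y hy
        refine hcl x (Finset.mem_sdiff.1 hx).1 y ?_
        simp only [Finset.mem_sdiff] at hy ⊢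
        tauto
      obtain ⟨i, j, hij, hi, hj⟩ := cov_split hK (Finset.sdiff_subset_sdiff hB
        (Finset.Subset.refl S)) hcl' h1
      by_cases hm : ∃ x ∈ B, x ∈ S
      · obtain ⟨x, hxB, hxS⟩ := hm
        refine ⟨i + 1, j, by omega, ⟨S, hS, hi⟩, hj.mono ?_⟩
        intro y hy
        have hyS : y ∉ S := by
          intro hyS
          refine hcl x hxB y hy (hK.down S _ hS ?_)
          intro z hz
          rcases Finset.mem_insert.1 hz with rfl | hz
          · exact hxS
          · rw [Finset.mem_singleton.1 hz]; exact hyS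
        simp only [Finset.mem_sdiff] at hy ⊢
        tauto
      · push Not at hm
        refine ⟨i, j + 1, by omega, hi.mono ?_, ⟨S, hS, hj.mono ?_⟩⟩
        · intro y hy
          exact Finset.mem_sdiff.2 ⟨hy, hm y hy⟩
        · intro y hy
          simp only [Finset.mem_sdiff] at hy ⊢
          tauto

lemma Y_split {K : Finset V → Prop} (hK : Cpx K) {C B : Finset V} (hB : B ⊆ C)
    (hcl : ∀ x ∈ B, ∀ y ∈ C \ B, ¬ K {x, y}) : Y K B + Y K (C \ B) ≤ Y K C := by
  obtain ⟨i, j, hij, hi, hj⟩ := cov_split hK hB hcl (Y_spec hK C)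
  have := Y_le hi
  have := Y_le hj
  omega

/-- the graph of pairs -/
def gr (K : Finset V → Prop) : SimpleGraph V where
  Adj x y := x ≠ y ∧ K {x, y}
  symm := ⟨fun x y h => ⟨h.1.symm, by rw [Finset.pair_comm]; exact h.2⟩⟩
  loopless := ⟨fun x h => h.1 rfl⟩

/-- perfect matching of `T` -/
def PM (K : Finset V → Prop) (T : Finset V) : Prop :=
  ∃ m : V → V, ∀ x ∈ T, m x ∈ T ∧ m (m x) = x ∧ (gr K).Adj x (m x)

lemma pm_Y {K : Finset V → Prop} (hK : Cpx K) : ∀ (n : ℕ) (T : Finset V), T.card ≤ n → PM K T →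
    2 * Y K T ≤ T.card := by
  intro n
  induction n with
  | zero =>
    intro T hT _
    have : T = ∅ := Finset.card_eq_zero.1 (Nat.le_zero.1 hT)
    subst this
    simp [Y_empty]
  | succ n ih =>
    intro T hT hm
    by_cases hT0 : T = ∅
    · subst hT0
      simp [Y_empty]
    obtain ⟨x, hx⟩ := Finset.nonempty_iff_ne_empty.2 hT0
    obtain ⟨m, hm⟩ := hm
    obtain ⟨h1, h2, h3, h4⟩ := hm x hx
    have hsub : ({x, m x} : Finset V) ⊆ T := by
      intro z hz
      rcases Finset.mem_insert.1 hz with rfl | hz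
      · exact hx
      · rw [Finset.mem_singleton.1 hz]; exact h1
    have hc : (T \ {x, m x}).card = T.card - 2 := by
      rw [Finset.card_sdiff_of_subset hsub, Finset.card_pair h3]
    have hc2 : 2 ≤ T.card := by
      have := Finset.card_le_card hsub
      rwa [Finset.card_pair h3] at this
    have h5 := ih (T \ {x, m x}) (by omega) ⟨m, by
      intro y hy
      have hy' := Finset.mem_sdiff.1 hy
      obtain ⟨g1, g2, g3⟩ := hm y hy'.1
      refine ⟨Finset.mem_sdiff.2 ⟨g1, ?_⟩, g2, g3⟩
      intro hc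
      apply hy'.2
      rcases Finset.mem_insert.1 hc with hc | hc
      · rw [← g2, hc]
        exact Finset.mem_insert_of_mem (Finset.mem_singleton_self _)
      · have hc' := Finset.mem_singleton.1 hc
        have : y = x := by rw [← g2, hc', h2]
        rw [this]
        exact Finset.mem_insert_self _ _⟩
    have h6 := Y_sdiff hK h4 T
    omega

end Pool.Agent.W212.EFF
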