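import Pool.Agent.W212.EFF.Bar

/-!
Gallai's theorem on critical graphs with connected complement, for complexes: if the cover
number drops when any vertex is deleted and the complex is connected, then
`|C| ≥ 2 Y(C) - 1`.
-/

set_option autoImplicit false

namespace Pool.Agent.W212.EFF

open Finset

variable {V : Type*} [DecidableEq V]

theorem gallai {K : Finset V → Prop} (hK : Cpx K) (C : Finset V)
    (hcrit : ∀ v ∈ C, Y K (C.erase v) < Y K C)
    (hconn : ∀ B ⊆ C, B.Nonempty → B ≠ C → ∃ x ∈ B, ∃ y ∈ C \ B, K {x, y}) :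
    2 * Y K C ≤ C.card + 1 := by
  classical
  by_contra hlt
  have hlt : C.card + 2 ≤ 2 * Y K C := by omega
  obtain ⟨A, F, h⟩ := exists_mbar K C
  have hne : ∀ O ∈ F, O.Nonempty := by
    intro O hO
    rw [← Finset.card_pos]
    obtain ⟨k, hk⟩ := h.odd O hO
    omega
  have hfc : ∀ O ∈ F, 2 * Y K O ≤ O.card + 1 := by
    intro O hO
    obtain ⟨v, hv⟩ := hne O hO
    have h1 := pm_Y hK _ _ (le_refl _) (h.fc hO hv)
    have h2 := Y_sdiff hK (hK.single v) O
    rw [Finset.sdiff_singleton_eq_erase] at h2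
    rw [Finset.card_erase_of_mem hv] at h1
    have h3 : 0 < O.card := Finset.card_pos.2 ⟨v, hv⟩
    omega
  have hnotA : ∀ O ∈ F, ∀ x ∈ O, x ∉ A := fun O hO x hx =>
    (Finset.mem_sdiff.1 (h.sub O hO hx)).2
  have hinC : ∀ O ∈ F, ∀ x ∈ O, x ∈ C := fun O hO x hx =>
    (Finset.mem_sdiff.1 (h.sub O hO hx)).1
  have hfc2 : ∀ O ∈ F, ∀ a ∈ A, (∃ x ∈ O, (gr K).Adj a x) →
      2 * Y K (insert a O) ≤ O.card + 1 := by
    rintro O hO a ha ⟨x, hx, hax⟩
    have h1 := pm_Y hK _ _ (le_refl _) (h.fc hO hx)
    have h2 := Y_sdiff hK hax.2 (insert a O)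
    have h3 : insert a O \ {a, x} = O.erase x := by
      ext z
      simp only [Finset.mem_sdiff, Finset.mem_insert, Finset.mem_singleton, Finset.mem_erase]
      constructor
      · rintro ⟨h4 | h4, h5⟩
        · exact absurd (Or.inl h4) h5
        · exact ⟨fun h6 => h5 (Or.inr h6), h4⟩
      · rintro ⟨h4, h5⟩
        refine ⟨Or.inr h5, fun h6 => ?_⟩
        rcases h6 with h6 | h6
        · subst h6; exact hnotA O hO _ h5 ha
        · exact h4 h6
    rw [h3] at h2
    rw [Finset.card_erase_of_mem hx] at h1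
    have h3 : 0 < O.card := Finset.card_pos.2 ⟨x, hx⟩
    omega
  let good : Finset V → Prop := fun O => O.card + 1 ≤ 2 * Y K O
  let adj : V → Finset V → Prop := fun a O => ∃ x ∈ O, (gr K).Adj a x
  let Ng : Finset V → Finset (Finset V) := fun B => F.filter (fun O => good O ∧ ∃ a ∈ B, adj a O)
  have hNg : ∀ B O, O ∈ Ng B ↔ O ∈ F ∧ good O ∧ ∃ a ∈ B, adj a O := fun B O => by
    simp only [Ng, Finset.mem_filter]
  obtain ⟨A1, hA1, hmax⟩ := Finset.exists_max_image A.powerset
    (fun B => (B.card : ℤ) - (Ng B).card) ⟨∅, Finset.empty_mem_powerset _⟩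
  rw [Finset.mem_powerset] at hA1
  have hmax' : ∀ B ⊆ A, B.card + (Ng A1).card ≤ A1.card + (Ng B).card := by
    intro B hB
    have := hmax B (Finset.mem_powerset.2 hB)
    omega
  by_cases hcase : A1 = A
  · subst hcase
    rename_i hAA
    -- all good members are adjacent to A
    have hall : ∀ O ∈ F, good O → O ∈ Ng A1 := by
      intro O hO hg
      by_contra hno
      have hna : ∀ a ∈ A1, ¬ adj a O := by
        intro a ha hadj
        exact hno ((hNg _ _).2 ⟨hO, hg, a, ha, hadj⟩)
      by_cases hOC : O = C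
      · have := hfc O hO
        rw [hOC] at this
        omega
      · obtain ⟨x, hx, y, hy, hxy⟩ := hconn O (fun x hx => hinC O hO x hx) (hne O hO) hOC
        have hy' := Finset.mem_sdiff.1 hy
        have hadj : (gr K).Adj x y := ⟨fun hc => hy'.2 (hc ▸ hx), hxy⟩
        rcases h.cl O hO x hx y hy'.1 hadj with h1 | h1
        · exact hy'.2 h1
        · exact hna y h1 ⟨x, hx, hadj.symm⟩
    let t : ↥(Ng A1) → Finset V := fun O => A1.filter (fun a => adj a O.1)
    have hH : ∃ g : ↥(Ng A1) → V, Function.Injective g ∧ ∀ O, g O ∈ t O := by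
      rw [← Finset.all_card_le_biUnion_card_iff_exists_injective]
      intro s
      have hsub : s.biUnion t ⊆ A1 := by
        intro x hx
        obtain ⟨O, _, hO⟩ := Finset.mem_biUnion.1 hx
        exact (Finset.mem_filter.1 hO).1
      have h1 := hmax' (A1 \ s.biUnion t) Finset.sdiff_subset
      have h2 := Finset.card_sdiff_add_card_eq_card hsub
      have h3 : Ng (A1 \ s.biUnion t) ⊆ Ng A1 \ s.map ⟨Subtype.val, Subtype.val_injective⟩ := by
        intro O hO
        obtain ⟨g1, g2, a, ha, hadj⟩ := (hNg _ _).1 hO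
        have ha' := Finset.mem_sdiff.1 ha
        refine Finset.mem_sdiff.2 ⟨(hNg _ _).2 ⟨g1, g2, a, ha'.1, hadj⟩, fun hc => ?_⟩
        obtain ⟨O', hO', he⟩ := Finset.mem_map.1 hc
        have he' : O'.1 = O := he
        apply ha'.2
        exact Finset.mem_biUnion.2 ⟨O', hO', Finset.mem_filter.2 ⟨ha'.1, he' ▸ hadj⟩⟩
      have h4 := Finset.card_le_card h3
      have h5 : s.map ⟨Subtype.val, Subtype.val_injective⟩ ⊆ Ng A1 := by
        intro O hO
        obtain ⟨O', _, he⟩ := Finset.mem_map.1 hO
        have he' : O'.1 = O := he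
        rw [← he']
        exact O'.2
      have h6 := Finset.card_sdiff_add_card_eq_card h5
      rw [Finset.card_map] at h6
      omega
    obtain ⟨g, hginj, hg⟩ := hH
    have hgA : ∀ O, g O ∈ A1 := fun O => (Finset.mem_filter.1 (hg O)).1
    have hgadj : ∀ O, adj (g O) O.1 := fun O => (Finset.mem_filter.1 (hg O)).2
    have hcov : C ⊆ (Finset.univ.biUnion (fun O : ↥(Ng A1) => insert (g O) O.1)) ∪
        ((A1 \ Finset.univ.image g) ∪ (F \ Ng A1).biUnion id) := by
      intro x hx
      by_cases hxA : x ∈ A1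
      · by_cases hxg : x ∈ Finset.univ.image g
        · obtain ⟨O, _, he⟩ := Finset.mem_image.1 hxg
          apply Finset.mem_union_left
          exact Finset.mem_biUnion.2 ⟨O, Finset.mem_univ _, by rw [he]; exact Finset.mem_insert_self _ _⟩
        · apply Finset.mem_union_right
          apply Finset.mem_union_left
          exact Finset.mem_sdiff.2 ⟨hxA, hxg⟩
      · have h1 : x ∈ F.biUnion id := by
          rw [← h.cover]
          exact Finset.mem_sdiff.2 ⟨hx, hxA⟩
        obtain ⟨O, hO, hxO⟩ := Finset.mem_biUnion.1 h1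
        by_cases hON : O ∈ Ng A1
        · apply Finset.mem_union_left
          exact Finset.mem_biUnion.2 ⟨⟨O, hON⟩, Finset.mem_univ _, Finset.mem_insert_of_mem hxO⟩
        · apply Finset.mem_union_right
          apply Finset.mem_union_right
          exact Finset.mem_biUnion.2 ⟨O, Finset.mem_sdiff.2 ⟨hO, hON⟩, hxO⟩
    have e1 : Y K C ≤ ∑ O : ↥(Ng A1), Y K (insert (g O) O.1) +
        ((A1 \ Finset.univ.image g).card + ∑ O ∈ F \ Ng A1, Y K O) := by
      refine (Y_mono hK hcov).trans ?_
      refine (Y_union_le hK _ _).trans (Nat.add_le_add (Y_biUnion_le hK _ _) ?_)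
      refine (Y_union_le hK _ _).trans (Nat.add_le_add (Y_le_card hK _) ?_)
      exact Y_biUnion_le hK _ _
    have e2 : 2 * ∑ O : ↥(Ng A1), Y K (insert (g O) O.1) ≤ ∑ O ∈ Ng A1, (O.card + 1) := by
      rw [Finset.mul_sum, ← Finset.sum_coe_sort (Ng A1)]
      apply Finset.sum_le_sum
      intro O _
      exact hfc2 O.1 ((hNg _ _).1 O.2).1 _ (hgA O) (hgadj O)
    have e3 : (A1 \ Finset.univ.image g).card + (Ng A1).card = A1.card := by
      have hsub : Finset.univ.image g ⊆ A1 := by
        intro x hx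
        obtain ⟨O, _, he⟩ := Finset.mem_image.1 hx
        rw [← he]
        exact hgA O
      have := Finset.card_sdiff_add_card_eq_card hsub
      rw [Finset.card_image_of_injective _ hginj, Finset.card_univ, Fintype.card_coe] at this
      exact this
    have e4 : 2 * ∑ O ∈ F \ Ng A1, Y K O + (F \ Ng A1).card ≤ ∑ O ∈ F \ Ng A1, O.card := by
      rw [Finset.card_eq_sum_ones, Finset.mul_sum, ← Finset.sum_add_distrib]
      apply Finset.sum_le_sum
      intro O hO
      have hO' := Finset.mem_sdiff.1 hO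
      have h1 : ¬ good O := fun hc => hO'.2 (hall O hO'.1 hc)
      obtain ⟨k, hk⟩ := h.odd O hO'.1
      simp only [good] at h1
      omega
    have e5 : ∑ O ∈ F, O.card + A1.card = C.card := by
      have h1 : (F.biUnion id).card = ∑ O ∈ F, O.card := by
        rw [Finset.card_biUnion]
        · rfl
        · intro O hO O' hO' hne
          exact h.disj O hO O' hO' hne
      rw [← h1, ← h.cover]
      exact Finset.card_sdiff_add_card_eq_card h.hA
    have hsubF : Ng A1 ⊆ F := fun O hO => ((hNg _ _).1 hO).1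
    have e6 : ∑ O ∈ F \ Ng A1, O.card + ∑ O ∈ Ng A1, O.card = ∑ O ∈ F, O.card :=
      Finset.sum_sdiff hsubF
    have e7 : (F \ Ng A1).card + (Ng A1).card = F.card := Finset.card_sdiff_add_card_eq_card hsubF
    have e8 : ∑ O ∈ Ng A1, (O.card + 1) = ∑ O ∈ Ng A1, O.card + (Ng A1).card := by
      rw [Finset.sum_add_distrib, Finset.card_eq_sum_ones]
    have e9 := h.le
    omega
  · set A0 := A \ A1 with hA0
    have hA0ne : A0.Nonempty := by
      rw [Finset.nonempty_iff_ne_empty]
      intro hc
      rw [hA0, Finset.sdiff_eq_empty_iff_subset] at hc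
      exact hcase (Finset.Subset.antisymm hA1 hc)
    have hA0A : A0 ⊆ A := Finset.sdiff_subset
    let t : ↥A0 → Finset (Finset V) := fun a => (F.filter (fun O => good O ∧ adj a.1 O)) \ Ng A1
    have hH : ∃ f : ↥A0 → Finset V, Function.Injective f ∧ ∀ a, f a ∈ t a := by
      rw [← Finset.all_card_le_biUnion_card_iff_exists_injective]
      intro s
      have hB : s.map ⟨Subtype.val, Subtype.val_injective⟩ ⊆ A0 := by
        intro x hx
        obtain ⟨a, _, he⟩ := Finset.mem_map.1 hx
        have he' : a.1 = x := he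
        rw [← he']
        exact a.2
      have h1 := hmax' (A1 ∪ s.map ⟨Subtype.val, Subtype.val_injective⟩)
        (Finset.union_subset hA1 (hB.trans hA0A))
      have h2 : (A1 ∪ s.map ⟨Subtype.val, Subtype.val_injective⟩).card = A1.card + s.card := by
        rw [Finset.card_union_of_disjoint, Finset.card_map]
        rw [Finset.disjoint_right]
        intro x hx
        exact (Finset.mem_sdiff.1 (hB hx)).2
      have h3 : Ng (A1 ∪ s.map ⟨Subtype.val, Subtype.val_injective⟩) ⊆ Ng A1 ∪ s.biUnion t := by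
        intro O hO
        obtain ⟨g1, g2, a, ha, hadj⟩ := (hNg _ _).1 hO
        by_cases hO1 : O ∈ Ng A1
        · exact Finset.mem_union_left _ hO1
        · apply Finset.mem_union_right
          rcases Finset.mem_union.1 ha with ha | ha
          · exact absurd ((hNg _ _).2 ⟨g1, g2, a, ha, hadj⟩) hO1
          · obtain ⟨a', ha', he⟩ := Finset.mem_map.1 ha
            have he' : a'.1 = a := he
            refine Finset.mem_biUnion.2 ⟨a', ha', Finset.mem_sdiff.2 ⟨Finset.mem_filter.2
              ⟨g1, g2, ?_⟩, hO1⟩⟩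
            rw [he']
            exact hadj
      have h4 := (Finset.card_le_card h3).trans (Finset.card_union_le _ _)
      omega
    obtain ⟨f, hfinj, hf⟩ := hH
    have hfF : ∀ a, f a ∈ F := fun a =>
      (Finset.mem_filter.1 (Finset.mem_sdiff.1 (hf a)).1).1
    have hfg : ∀ a, good (f a) := fun a =>
      (Finset.mem_filter.1 (Finset.mem_sdiff.1 (hf a)).1).2.1
    have hfadj : ∀ a, adj a.1 (f a) := fun a =>
      (Finset.mem_filter.1 (Finset.mem_sdiff.1 (hf a)).1).2.2
    have hfN : ∀ a, f a ∉ Ng A1 := fun a => (Finset.mem_sdiff.1 (hf a)).2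
    have hlow : ∀ s : Finset ↥A0, ∑ a ∈ s, Y K (f a) + Y K ((C \ A0) \ s.biUnion f) ≤
        Y K (C \ A0) := by
      intro s
      induction s using Finset.induction_on with
      | empty => simp
      | insert a s ha ih =>
        have hD : (C \ A0) \ (insert a s).biUnion f = ((C \ A0) \ s.biUnion f) \ f a := by
          ext x
          simp only [Finset.biUnion_insert, Finset.mem_sdiff, Finset.mem_union]
          tauto
        rw [Finset.sum_insert ha, hD]
        have hsub : f a ⊆ (C \ A0) \ s.biUnion f := by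
          intro x hx
          refine Finset.mem_sdiff.2 ⟨Finset.mem_sdiff.2 ⟨hinC _ (hfF a) x hx, fun hc =>
            hnotA _ (hfF a) x hx (hA0A hc)⟩, fun hc => ?_⟩
          obtain ⟨b, hb, hxb⟩ := Finset.mem_biUnion.1 hc
          have hab : f a ≠ f b := fun he => ha (by rw [hfinj he]; exact hb)
          exact Finset.disjoint_left.1 (h.disj _ (hfF a) _ (hfF b) hab) hx hxb
        have hsp := Y_split hK hsub (by
          intro x hx y hy hxy
          have hy' := Finset.mem_sdiff.1 hy
          have hy2 := Finset.mem_sdiff.1 (Finset.mem_sdiff.1 hy'.1).1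
          have hadj : (gr K).Adj x y := ⟨fun hc => hy'.2 (hc ▸ hx), hxy⟩
          rcases h.cl _ (hfF a) x hx y hy2.1 hadj with h1 | h1
          · exact hy'.2 h1
          · have hyA1 : y ∈ A1 := by
              by_contra hno
              exact hy2.2 (Finset.mem_sdiff.2 ⟨h1, hno⟩)
            exact hfN a ((hNg _ _).2 ⟨hfF a, hfg a, y, hyA1, x, hx, hadj.symm⟩))
        omega
    have hcov : C ⊆ ((C \ A0) \ Finset.univ.biUnion f) ∪
        Finset.univ.biUnion (fun a : ↥A0 => insert a.1 (f a)) := by
      intro x hx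
      by_cases hxA : x ∈ A0
      · apply Finset.mem_union_right
        exact Finset.mem_biUnion.2 ⟨⟨x, hxA⟩, Finset.mem_univ _, Finset.mem_insert_self _ _⟩
      · by_cases hxU : x ∈ Finset.univ.biUnion f
        · obtain ⟨a, _, ha⟩ := Finset.mem_biUnion.1 hxU
          apply Finset.mem_union_right
          exact Finset.mem_biUnion.2 ⟨a, Finset.mem_univ _, Finset.mem_insert_of_mem ha⟩
        · apply Finset.mem_union_left
          exact Finset.mem_sdiff.2 ⟨Finset.mem_sdiff.2 ⟨hx, hxA⟩, hxU⟩
    have e1 : Y K C ≤ Y K ((C \ A0) \ Finset.univ.biUnion f) +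
        ∑ a : ↥A0, Y K (insert a.1 (f a)) :=
      (Y_mono hK hcov).trans ((Y_union_le hK _ _).trans
        (Nat.add_le_add_left (Y_biUnion_le hK _ _) _))
    have e2 : ∑ a : ↥A0, Y K (insert a.1 (f a)) ≤ ∑ a : ↥A0, Y K (f a) := by
      apply Finset.sum_le_sum
      intro a _
      have h1 := hfc2 (f a) (hfF a) a.1 (hA0A a.2) (hfadj a)
      have h2 := hfg a
      simp only [good] at h2
      omega
    have e3 := hlow Finset.univ
    obtain ⟨a, ha⟩ := hA0ne
    have e4 : Y K (C \ A0) ≤ Y K (C.erase a) := by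
      apply Y_mono hK
      intro x hx
      have hx' := Finset.mem_sdiff.1 hx
      exact Finset.mem_erase.2 ⟨fun hc => hx'.2 (hc ▸ ha), hx'.1⟩
    have e5 := hcrit a (h.hA (hA0A ha))
    omega

end Pool.Agent.W212.EFF
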