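import Pool.Agent.W212.EFF.Gallai

/-!
The basic inequality: for nonnegative weights `w` on sets `S i` with `p v = ∑ w i` over the sets
containing `v`, one has `Y(C)^2 ≤ W * ∑_{v ∈ C} 1 / p v`, where `Y(C)` is the cover number.
-/

set_option autoImplicit false
set_option linter.unusedSectionVars false

namespace Pool.Agent.W212.EFF

open Finset

variable {V : Type*} [DecidableEq V] {ι : Type*} [DecidableEq ι]

/-- the complex generated by the sets `S i` and all singletons -/
def face (I : Finset ι) (S : ι → Finset V) : Finset V → Prop :=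
  fun T => T.card ≤ 1 ∨ ∃ i ∈ I, T ⊆ S i

lemma face_cpx (I : Finset ι) (S : ι → Finset V) : Cpx (face I S) where
  down := by
    rintro A B (h | ⟨i, hi, h⟩) hBA
    · exact Or.inl ((Finset.card_le_card hBA).trans h)
    · exact Or.inr ⟨i, hi, hBA.trans h⟩
  empty := Or.inl (by simp)
  single := fun v => Or.inl (by simp)

/-- the weight of the sets containing `v` -/
noncomputable def pw (I : Finset ι) (S : ι → Finset V) (w : ι → ℝ) (v : V) : ℝ :=
  ∑ i ∈ I.filter (fun i => v ∈ S i), w i

/-- the weight of the sets meeting `C` -/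
noncomputable def tw (I : Finset ι) (S : ι → Finset V) (w : ι → ℝ) (C : Finset V) : ℝ :=
  ∑ i ∈ I.filter (fun i => (S i ∩ C).Nonempty), w i

lemma tw_mono {I : Finset ι} {S : ι → Finset V} {w : ι → ℝ} (hw : ∀ i ∈ I, 0 ≤ w i)
    {C D : Finset V} (h : D ⊆ C) : tw I S w D ≤ tw I S w C := by
  apply Finset.sum_le_sum_of_subset_of_nonneg
  · intro i hi
    rw [Finset.mem_filter] at hi ⊢
    exact ⟨hi.1, hi.2.mono (Finset.inter_subset_inter (Finset.Subset.refl _) h)⟩
  · intro i hi _
    exact hw i (Finset.mem_filter.1 hi).1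

lemma tw_nonneg {I : Finset ι} {S : ι → Finset V} {w : ι → ℝ} (hw : ∀ i ∈ I, 0 ≤ w i)
    (C : Finset V) : 0 ≤ tw I S w C :=
  Finset.sum_nonneg fun i hi => hw i (Finset.mem_filter.1 hi).1

lemma amgm {a b W1 W2 l1 l2 : ℝ} (hW1 : 0 ≤ W1) (hW2 : 0 ≤ W2) (hl1 : 0 ≤ l1)
    (hl2 : 0 ≤ l2) (h1 : a ^ 2 ≤ W1 * l1) (h2 : b ^ 2 ≤ W2 * l2) :
    2 * (a * b) ≤ W1 * l2 + W2 * l1 := by
  have h0 : 0 ≤ W1 * l2 + W2 * l1 := by positivity
  apply le_of_sq_le_sq _ h0
  have h7 : (a ^ 2) * (b ^ 2) ≤ (W1 * l1) * (W2 * l2) :=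
    mul_le_mul h1 h2 (by positivity) (by positivity)
  nlinarith [sq_nonneg (W1 * l2 - W2 * l1)]

theorem main_ineq {I : Finset ι} {S : ι → Finset V} {w : ι → ℝ} (hw : ∀ i ∈ I, 0 ≤ w i) :
    ∀ (n : ℕ) (C : Finset V), C.card ≤ n → (∀ v ∈ C, 0 < pw I S w v) →
    (Y (face I S) C : ℝ) ^ 2 ≤ tw I S w C * ∑ v ∈ C, 1 / pw I S w v := by
  classical
  intro n
  induction n with
  | zero =>
    intro C hC _
    have : C = ∅ := Finset.card_eq_zero.1 (Nat.le_zero.1 hC)
    subst this
    simp [Y_empty]
  | succ n ih =>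
    intro C hC hp
    have hK := face_cpx I S
    by_cases hC0 : C = ∅
    · subst hC0
      simp [Y_empty]
    have hCne := Finset.nonempty_iff_ne_empty.2 hC0
    have hinv : ∀ v ∈ C, 0 < 1 / pw I S w v := fun v hv => one_div_pos.2 (hp v hv)
    have hsum0 : ∀ D ⊆ C, 0 ≤ ∑ v ∈ D, 1 / pw I S w v := fun D hD =>
      Finset.sum_nonneg fun v hv => (hinv v (hD hv)).le
    have hsumm : ∀ D ⊆ C, ∑ v ∈ D, 1 / pw I S w v ≤ ∑ v ∈ C, 1 / pw I S w v := fun D hD =>
      Finset.sum_le_sum_of_subset_of_nonneg hD fun v hv _ => (hinv v hv).le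
    by_cases hcrit : ∀ v ∈ C, Y (face I S) (C.erase v) < Y (face I S) C
    swap
    · push Not at hcrit
      obtain ⟨v, hv, hle⟩ := hcrit
      have h1 := ih (C.erase v) (by
        rw [Finset.card_erase_of_mem hv]; omega) (fun u hu => hp u (Finset.mem_of_mem_erase hu))
      have h2 : (Y (face I S) C : ℝ) ≤ Y (face I S) (C.erase v) := by exact_mod_cast hle
      have h3 : (0 : ℝ) ≤ Y (face I S) C := Nat.cast_nonneg _
      calc (Y (face I S) C : ℝ) ^ 2 ≤ (Y (face I S) (C.erase v) : ℝ) ^ 2 :=
            pow_le_pow_left₀ h3 h2 2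
        _ ≤ _ := h1
        _ ≤ _ := mul_le_mul (tw_mono hw (Finset.erase_subset _ _))
            (hsumm _ (Finset.erase_subset _ _)) (hsum0 _ (Finset.erase_subset _ _))
            (tw_nonneg hw _)
    by_cases hconn : ∀ B ⊆ C, B.Nonempty → B ≠ C → ∃ x ∈ B, ∃ y ∈ C \ B, face I S {x, y}
    swap
    · push Not at hconn
      obtain ⟨B, hB, hBne, hBC, hcl⟩ := hconn
      have hD : C \ B ⊆ C := Finset.sdiff_subset
      have hDne : (C \ B).Nonempty := by
        rw [Finset.nonempty_iff_ne_empty]
        intro hc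
        rw [Finset.sdiff_eq_empty_iff_subset] at hc
        exact hBC (Finset.Subset.antisymm hB hc)
      have hcards := Finset.card_sdiff_add_card_eq_card hB
      have hBpos := Finset.card_pos.2 hBne
      have hDpos := Finset.card_pos.2 hDne
      have h1 := ih B (by omega) (fun u hu => hp u (hB hu))
      have h2 := ih (C \ B) (by omega) (fun u hu => hp u (hD hu))
      have h3 : Y (face I S) C ≤ Y (face I S) B + Y (face I S) (C \ B) := by
        have := Y_union_le hK B (C \ B)
        rwa [Finset.union_sdiff_of_subset hB] at this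
      have h4 : tw I S w B + tw I S w (C \ B) ≤ tw I S w C := by
        unfold tw
        rw [← Finset.sum_union]
        · apply Finset.sum_le_sum_of_subset_of_nonneg
          · intro i hi
            rcases Finset.mem_union.1 hi with hi | hi
            · rw [Finset.mem_filter] at hi ⊢
              exact ⟨hi.1, hi.2.mono (Finset.inter_subset_inter (Finset.Subset.refl _) hB)⟩
            · rw [Finset.mem_filter] at hi ⊢
              exact ⟨hi.1, hi.2.mono (Finset.inter_subset_inter (Finset.Subset.refl _) hD)⟩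
          · intro i hi _
            exact hw i (Finset.mem_filter.1 hi).1
        · rw [Finset.disjoint_left]
          intro i hi hi'
          obtain ⟨hiI, x, hx⟩ := Finset.mem_filter.1 hi
          obtain ⟨_, y, hy⟩ := Finset.mem_filter.1 hi'
          rw [Finset.mem_inter] at hx hy
          apply hcl x hx.2 y hy.2
          right
          refine ⟨i, hiI, ?_⟩
          intro z hz
          rcases Finset.mem_insert.1 hz with rfl | hz
          · exact hx.1
          · rw [Finset.mem_singleton.1 hz]; exact hy.1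
      have h5 : ∑ v ∈ C \ B, 1 / pw I S w v + ∑ v ∈ B, 1 / pw I S w v =
          ∑ v ∈ C, 1 / pw I S w v := Finset.sum_sdiff hB
      set a := (Y (face I S) B : ℝ)
      set b := (Y (face I S) (C \ B) : ℝ)
      set W1 := tw I S w B
      set W2 := tw I S w (C \ B)
      set l1 := ∑ v ∈ B, 1 / pw I S w v
      set l2 := ∑ v ∈ C \ B, 1 / pw I S w v
      have ha : 0 ≤ a := Nat.cast_nonneg _
      have hb : 0 ≤ b := Nat.cast_nonneg _
      have hW1 : 0 ≤ W1 := tw_nonneg hw _
      have hW2 : 0 ≤ W2 := tw_nonneg hw _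
      have hl1 : 0 ≤ l1 := hsum0 _ hB
      have hl2 : 0 ≤ l2 := hsum0 _ hD
      have h6 : 2 * (a * b) ≤ W1 * l2 + W2 * l1 := amgm hW1 hW2 hl1 hl2 h1 h2
      have h7 : (Y (face I S) C : ℝ) ≤ a + b := by
        have : ((Y (face I S) C : ℕ) : ℝ) ≤
          ((Y (face I S) B + Y (face I S) (C \ B) : ℕ) : ℝ) := by exact_mod_cast h3
        simpa using this
      have h8 : (0 : ℝ) ≤ Y (face I S) C := Nat.cast_nonneg _
      calc (Y (face I S) C : ℝ) ^ 2 ≤ (a + b) ^ 2 := pow_le_pow_left₀ h8 h7 2
        _ = a ^ 2 + b ^ 2 + 2 * (a * b) := by ring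
        _ ≤ W1 * l1 + W2 * l2 + (W1 * l2 + W2 * l1) := by linarith
        _ = (W1 + W2) * (l2 + l1) := by ring
        _ ≤ tw I S w C * (l2 + l1) := mul_le_mul_of_nonneg_right h4 (by positivity)
        _ = _ := by rw [h5]
    have hgal := gallai hK C hcrit hconn
    have hY1 : 1 ≤ Y (face I S) C := by
      obtain ⟨v, hv⟩ := hCne
      have := hcrit v hv
      omega
    set J := I.filter (fun i => (S i ∩ C).Nonempty) with hJ
    set W := tw I S w C with hW
    set l := ∑ v ∈ C, 1 / pw I S w v with hl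
    have hW0 : 0 ≤ W := tw_nonneg hw _
    have hstep : ∀ i ∈ J, ((Y (face I S) C : ℝ) - 1) ^ 2 ≤
        W * ∑ v ∈ C \ S i, 1 / pw I S w v := by
      intro i hi
      obtain ⟨hiI, x, hx⟩ := Finset.mem_filter.1 hi
      rw [Finset.mem_inter] at hx
      have hsub : C \ S i ⊆ C := Finset.sdiff_subset
      have hlt : (C \ S i).card < C.card := by
        apply Finset.card_lt_card
        refine ⟨hsub, fun hc => ?_⟩
        exact (Finset.mem_sdiff.1 (hc hx.2)).2 hx.1
      have h1 := ih (C \ S i) (by omega) (fun u hu => hp u (hsub hu))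
      have h2 := Y_sdiff hK (show face I S (S i) from Or.inr ⟨i, hiI, Finset.Subset.refl _⟩) C
      have h3 : (Y (face I S) C : ℝ) - 1 ≤ Y (face I S) (C \ S i) := by
        have : ((Y (face I S) C : ℕ) : ℝ) ≤ ((Y (face I S) (C \ S i) + 1 : ℕ) : ℝ) := by
          exact_mod_cast h2
        push_cast at this
        linarith
      have h4 : (0 : ℝ) ≤ (Y (face I S) C : ℝ) - 1 := by
        have : ((1 : ℕ) : ℝ) ≤ Y (face I S) C := by exact_mod_cast hY1
        push_cast at this
        linarith
      calc ((Y (face I S) C : ℝ) - 1) ^ 2 ≤ (Y (face I S) (C \ S i) : ℝ) ^ 2 :=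
            pow_le_pow_left₀ h4 h3 2
        _ ≤ _ := h1
        _ ≤ _ := mul_le_mul_of_nonneg_right (tw_mono hw hsub) (hsum0 _ hsub)
    have hsumw : ∑ i ∈ J, w i = W := rfl
    have hWp : ∀ v ∈ C, ∑ i ∈ J.filter (fun i => v ∉ S i), w i = W - pw I S w v := by
      intro v hv
      have h1 : J.filter (fun i => v ∈ S i) = I.filter (fun i => v ∈ S i) := by
        ext i
        simp only [hJ, Finset.mem_filter]
        constructor
        · rintro ⟨⟨h1, _⟩, h2⟩
          exact ⟨h1, h2⟩
        · rintro ⟨h1, h2⟩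
          exact ⟨⟨h1, v, Finset.mem_inter.2 ⟨h2, hv⟩⟩, h2⟩
      have h2 := Finset.sum_filter_add_sum_filter_not J (fun i => v ∈ S i) w
      rw [h1] at h2
      unfold pw
      linarith
    have hWpos : 0 < W := by
      obtain ⟨v, hv⟩ := hCne
      have h1 := hWp v hv
      have h2 : 0 ≤ ∑ i ∈ J.filter (fun i => v ∉ S i), w i :=
        Finset.sum_nonneg fun i hi => hw i (Finset.mem_filter.1 (Finset.mem_filter.1 hi).1).1
      have h3 := hp v hv
      linarith
    have havg : ∑ i ∈ J, w i * ∑ v ∈ C \ S i, 1 / pw I S w v = W * l - C.card := by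
      calc ∑ i ∈ J, w i * ∑ v ∈ C \ S i, 1 / pw I S w v
          = ∑ i ∈ J, ∑ v ∈ C, if v ∉ S i then w i * (1 / pw I S w v) else 0 := by
            apply Finset.sum_congr rfl
            intro i _
            rw [Finset.mul_sum, ← Finset.sum_filter]
            apply Finset.sum_congr _ (fun _ _ => rfl)
            ext v
            simp
        _ = ∑ v ∈ C, ∑ i ∈ J, if v ∉ S i then w i * (1 / pw I S w v) else 0 :=
            Finset.sum_comm
        _ = ∑ v ∈ C, (W * (1 / pw I S w v) - 1) := by
            apply Finset.sum_congr rfl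
            intro v hv
            rw [← Finset.sum_filter, ← Finset.sum_mul, hWp v hv, sub_mul]
            have := (hp v hv).ne'
            field_simp
        _ = W * l - C.card := by
            rw [Finset.sum_sub_distrib, ← Finset.mul_sum, Finset.sum_const, nsmul_eq_mul, mul_one]
    have hfin : W * ((Y (face I S) C : ℝ) - 1) ^ 2 ≤ W * (W * l - C.card) := by
      calc W * ((Y (face I S) C : ℝ) - 1) ^ 2
          = ∑ i ∈ J, w i * ((Y (face I S) C : ℝ) - 1) ^ 2 := by
            rw [← Finset.sum_mul, hsumw]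
        _ ≤ ∑ i ∈ J, w i * (W * ∑ v ∈ C \ S i, 1 / pw I S w v) := by
            apply Finset.sum_le_sum
            intro i hi
            exact mul_le_mul_of_nonneg_left (hstep i hi) (hw i (Finset.mem_filter.1 hi).1)
        _ = W * ∑ i ∈ J, w i * ∑ v ∈ C \ S i, 1 / pw I S w v := by
            rw [Finset.mul_sum]
            apply Finset.sum_congr rfl
            intro i _
            ring
        _ = _ := by rw [havg]
    have hfin2 := le_of_mul_le_mul_left hfin hWpos
    have hgal' : 2 * (Y (face I S) C : ℝ) ≤ C.card + 1 := by exact_mod_cast hgal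
    nlinarith

end Pool.Agent.W212.EFF
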