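import Pool.Agent.W212.EFF.Ineq

/-!
Duality: there is a packing `u` (weight at most `1` on every face) with `∑ √u ≥ Y(C)`.
-/

set_option autoImplicit false
set_option linter.unusedSectionVars false

namespace Pool.Agent.W212.EFF

open Finset

variable {V : Type*} [DecidableEq V] {ι : Type*} [DecidableEq ι] [Fintype ι]

lemma perturb {p s ε : ℝ} (hp : 0 < p) (hp1 : p ≤ 1) (hs0 : 0 ≤ s) (hs1 : s ≤ 1) (hε : 0 < ε)
    (hε1 : ε ≤ 1 / 2) :
    1 / ((1 - ε) * p + ε * s) ≤ 1 / p - ε * ((s - p) / p ^ 2) + ε ^ 2 * (2 / p ^ 3) := by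
  set q := (1 - ε) * p + ε * s with hq
  have hq2 : p / 2 ≤ q := by
    have h1 : p / 2 ≤ (1 - ε) * p := by nlinarith
    have h2 : 0 ≤ ε * s := by positivity
    linarith
  have hqpos : 0 < q := by linarith
  have e1 : 1 / q = 1 / p - ε * ((s - p) / p ^ 2) + ε ^ 2 * ((s - p) ^ 2 / (p ^ 2 * q)) := by
    have hp' := hp.ne'
    have hq' := hqpos.ne'
    field_simp
    rw [hq]
    ring
  rw [e1]
  have e2 : (s - p) ^ 2 / (p ^ 2 * q) ≤ 2 / p ^ 3 := by
    rw [div_le_div_iff₀ (by positivity) (by positivity)]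
    have h1 : (s - p) ^ 2 ≤ 1 := by nlinarith
    have h2 : p ^ 3 ≤ 2 * (p ^ 2 * q) := by nlinarith [sq_nonneg p]
    calc (s - p) ^ 2 * p ^ 3 ≤ 1 * p ^ 3 := mul_le_mul_of_nonneg_right h1 (by positivity)
      _ ≤ 2 * (p ^ 2 * q) := by linarith
  have := mul_le_mul_of_nonneg_left e2 (sq_nonneg ε)
  linarith

theorem exists_packing (S : ι → Finset V) (C : Finset V) (hC : ∀ v ∈ C, ∃ i, v ∈ S i)
    (hne : C.Nonempty) :
    ∃ u : V → ℝ, (∀ v, 0 ≤ u v) ∧ (∀ i, ∑ v ∈ S i ∩ C, u v ≤ 1) ∧
      (Y (face (Finset.univ : Finset ι) S) C : ℝ) ≤ ∑ v ∈ C, Real.sqrt (u v) := by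
  classical
  set p : (ι → ℝ) → V → ℝ := fun w v => pw Finset.univ S w v with hpdef
  have hpcont : ∀ v, Continuous (fun w => p w v) := by
    intro v
    simp only [hpdef, pw]
    exact continuous_finsetSum _ fun i _ => continuous_apply i
  set f : (ι → ℝ) → ℝ := fun w => ∑ v ∈ C, 1 / p w v with hf
  obtain ⟨v0, hv0⟩ := hne
  obtain ⟨i0, hi0⟩ := hC v0 hv0
  have hcard : 0 < (Fintype.card ι : ℝ) := by
    have : 0 < Fintype.card ι := Fintype.card_pos_iff.2 ⟨i0⟩
    exact_mod_cast this
  set w0 : ι → ℝ := fun _ => 1 / (Fintype.card ι : ℝ) with hw0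
  have hw0s : w0 ∈ stdSimplex ℝ ι := by
    refine ⟨fun i => by positivity, ?_⟩
    simp only [hw0, Finset.sum_const, Finset.card_univ, nsmul_eq_mul]
    field_simp
  have hple : ∀ w ∈ stdSimplex ℝ ι, ∀ v, p w v ≤ 1 := by
    intro w hw v
    rw [← hw.2]
    exact Finset.sum_le_sum_of_subset_of_nonneg (Finset.filter_subset _ _) fun i _ _ => hw.1 i
  have hp0 : ∀ v ∈ C, 0 < p w0 v := by
    intro v hv
    obtain ⟨i, hi⟩ := hC v hv
    have h1 : w0 i ≤ p w0 v := by
      apply Finset.single_le_sum (f := w0) (fun j _ => by positivity)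
      exact Finset.mem_filter.2 ⟨Finset.mem_univ _, hi⟩
    have h2 : 0 < w0 i := by positivity
    linarith
  have hterm : ∀ w, (∀ v ∈ C, 0 < p w v) → ∀ v ∈ C, 1 / p w v ≤ f w := by
    intro w hw v hv
    exact Finset.single_le_sum (f := fun v => 1 / p w v)
      (fun j hj => (one_div_pos.2 (hw j hj)).le) hv
  set B := f w0 with hB
  have hBpos : 0 < B := lt_of_lt_of_le (one_div_pos.2 (hp0 v0 hv0)) (hterm w0 hp0 v0 hv0)
  set X : Set (ι → ℝ) := stdSimplex ℝ ι ∩ {w | ∀ v ∈ C, 1 / B ≤ p w v} with hX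
  have hXc : IsCompact X := by
    apply (isCompact_stdSimplex (𝕜 := ℝ) (ι := ι)).inter_right
    simp only [Set.setOf_forall]
    exact isClosed_biInter fun v _ => isClosed_le continuous_const (hpcont v)
  have hw0X : w0 ∈ X := by
    refine ⟨hw0s, fun v hv => ?_⟩
    rw [one_div_le hBpos (hp0 v hv)]
    exact hterm w0 hp0 v hv
  have hpX : ∀ w ∈ X, ∀ v ∈ C, 0 < p w v := fun w hw v hv =>
    lt_of_lt_of_le (one_div_pos.2 hBpos) (hw.2 v hv)
  have hfc : ContinuousOn f X := by
    apply continuousOn_finsetSum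
    intro v hv
    apply ContinuousOn.div continuousOn_const (hpcont v).continuousOn
    intro w hw
    exact (hpX w hw v hv).ne'
  obtain ⟨w, hwX, hmin⟩ := hXc.exists_isMinOn ⟨w0, hw0X⟩ hfc
  have hwp := hpX w hwX
  have hfw : f w ≤ B := hmin hw0X
  set l := f w with hl
  have hlpos : 0 < l := lt_of_lt_of_le (one_div_pos.2 (hwp v0 hv0)) (hterm w hwp v0 hv0)
  -- optimality
  have hopt : ∀ i, ∑ v ∈ S i ∩ C, 1 / p w v ^ 2 ≤ l := by
    intro i
    by_contra hlt
    push Not at hlt
    set D := ∑ v ∈ S i ∩ C, 1 / p w v ^ 2 - l with hD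
    have hDpos : 0 < D := by linarith
    set M := ∑ v ∈ C, 2 / p w v ^ 3 with hM
    have hMpos : 0 < M := Finset.sum_pos (fun v hv => by
      have := hwp v hv
      positivity) ⟨v0, hv0⟩
    set ε := min (1 / 2) (D / (2 * M)) with hε
    have hεpos : 0 < ε := lt_min (by norm_num) (by positivity)
    have hε1 : ε ≤ 1 / 2 := min_le_left _ _
    have hε2 : ε * M ≤ D / 2 := by
      have : ε ≤ D / (2 * M) := min_le_right _ _
      calc ε * M ≤ D / (2 * M) * M := mul_le_mul_of_nonneg_right this hMpos.le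
        _ = D / 2 := by field_simp
    set e : ι → ℝ := fun j => if j = i then 1 else 0 with he
    set w' : ι → ℝ := fun j => (1 - ε) * w j + ε * e j with hw'
    have hw's : w' ∈ stdSimplex ℝ ι := by
      refine ⟨fun j => ?_, ?_⟩
      · have h1 := hwX.1.1 j
        have h2 : 0 ≤ e j := by
          simp only [he]; split_ifs <;> norm_num
        have h3 : 0 ≤ 1 - ε := by linarith
        simp only [hw']
        positivity
      · simp only [hw', Finset.sum_add_distrib, ← Finset.mul_sum]
        rw [hwX.1.2]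
        simp [he]
    have hpw' : ∀ v, p w' v = (1 - ε) * p w v + ε * (if v ∈ S i then 1 else 0) := by
      intro v
      simp only [hpdef, pw, hw', Finset.sum_add_distrib, ← Finset.mul_sum]
      congr 2
      simp only [he]
      rw [Finset.sum_ite_eq']
      simp
    have hpos' : ∀ v ∈ C, 0 < p w' v := by
      intro v hv
      rw [hpw']
      have h1 := hwp v hv
      have h2 : 0 < (1 - ε) * p w v := mul_pos (by linarith) h1
      have h3 : (0 : ℝ) ≤ ε * (if v ∈ S i then 1 else 0) := by
        split_ifs <;> simp [hεpos.le]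
      linarith
    have hlt' : f w' < l := by
      have h1 : f w' ≤ ∑ v ∈ C, (1 / p w v - ε * (((if v ∈ S i then 1 else 0) - p w v) /
          p w v ^ 2) + ε ^ 2 * (2 / p w v ^ 3)) := by
        apply Finset.sum_le_sum
        intro v hv
        rw [hpw']
        exact perturb (hwp v hv) (hple w hwX.1 v) (by split_ifs <;> norm_num)
          (by split_ifs <;> norm_num) hεpos hε1
      have h2 : ∑ v ∈ C, (1 / p w v - ε * (((if v ∈ S i then 1 else 0) - p w v) /
          p w v ^ 2) + ε ^ 2 * (2 / p w v ^ 3)) = l - ε * D + ε ^ 2 * M := by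
        rw [Finset.sum_add_distrib, Finset.sum_sub_distrib, ← Finset.mul_sum, ← Finset.mul_sum]
        have h3 : ∑ v ∈ C, ((if v ∈ S i then (1 : ℝ) else 0) - p w v) / p w v ^ 2 = D := by
          have h4 : ∀ v ∈ C, ((if v ∈ S i then (1 : ℝ) else 0) - p w v) / p w v ^ 2 =
              (if v ∈ S i then 1 / p w v ^ 2 else 0) - 1 / p w v := by
            intro v hv
            have := (hwp v hv).ne'
            split_ifs
            · field_simp
            · field_simp
              ring
          rw [Finset.sum_congr rfl h4, Finset.sum_sub_distrib, ← Finset.sum_filter,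
            Finset.filter_mem_eq_inter, Finset.inter_comm]
        rw [h3]
      have h5 : ε ^ 2 * M ≤ ε * (D / 2) := by
        calc ε ^ 2 * M = ε * (ε * M) := by ring
          _ ≤ _ := mul_le_mul_of_nonneg_left hε2 hεpos.le
      have h6 : 0 < ε * D := by positivity
      linarith
    by_cases hin : w' ∈ X
    · have := hmin hin
      simp only [Set.mem_setOf_eq] at this
      linarith
    · have h1 : ∃ v ∈ C, p w' v < 1 / B := by
        by_contra hcon
        push Not at hcon
        exact hin ⟨hw's, hcon⟩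
      obtain ⟨v, hv, hlt2⟩ := h1
      have h2 := hterm w' hpos' v hv
      have h3 : B < 1 / p w' v := by
        rw [lt_one_div hBpos (hpos' v hv)]
        exact hlt2
      linarith
  refine ⟨fun v => if v ∈ C then 1 / (l * p w v ^ 2) else 0, ?_, ?_, ?_⟩
  · intro v
    simp only
    split_ifs with hv
    · have := hwp v hv
      positivity
    · exact le_refl _
  · intro i
    have h1 : ∑ v ∈ S i ∩ C, (if v ∈ C then 1 / (l * p w v ^ 2) else 0) =
        (1 / l) * ∑ v ∈ S i ∩ C, 1 / p w v ^ 2 := by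
      rw [Finset.mul_sum]
      apply Finset.sum_congr rfl
      intro v hv
      have hvC := (Finset.mem_inter.1 hv).2
      rw [if_pos hvC]
      have := (hwp v hvC).ne'
      field_simp
    rw [h1]
    calc (1 / l) * ∑ v ∈ S i ∩ C, 1 / p w v ^ 2 ≤ (1 / l) * l :=
          mul_le_mul_of_nonneg_left (hopt i) (by positivity)
      _ = 1 := by field_simp
  · have h1 : ∑ v ∈ C, Real.sqrt (if v ∈ C then 1 / (l * p w v ^ 2) else 0) = Real.sqrt l := by
      have h2 : ∀ v ∈ C, Real.sqrt (if v ∈ C then 1 / (l * p w v ^ 2) else 0) =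
          (1 / Real.sqrt l) * (1 / p w v) := by
        intro v hv
        rw [if_pos hv]
        have h3 := hwp v hv
        have h4 : 1 / (l * p w v ^ 2) = ((1 / Real.sqrt l) * (1 / p w v)) ^ 2 := by
          rw [mul_pow, div_pow, div_pow, Real.sq_sqrt hlpos.le]
          field_simp
        rw [h4, Real.sqrt_sq (by positivity)]
      rw [Finset.sum_congr rfl h2, ← Finset.mul_sum]
      change (1 / Real.sqrt l) * l = Real.sqrt l
      rw [one_div, inv_mul_eq_div, Real.div_sqrt]
    rw [h1]
    apply Real.le_sqrt_of_sq_le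
    have h2 := main_ineq (I := Finset.univ) (S := S) (w := w) (fun i _ => hwX.1.1 i) _ C
      (le_refl _) hwp
    have h3 : tw Finset.univ S w C ≤ 1 := by
      rw [← hwX.1.2]
      exact Finset.sum_le_sum_of_subset_of_nonneg (Finset.filter_subset _ _)
        fun i _ _ => hwX.1.1 i
    calc (Y (face (Finset.univ : Finset ι) S) C : ℝ) ^ 2 ≤ _ := h2
      _ ≤ 1 * l := mul_le_mul_of_nonneg_right h3 hlpos.le
      _ = l := one_mul _

end Pool.Agent.W212.EFF
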